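import Mathlib

/-!
Basic tools for the recurrence quotient problem: factors of an infinite word `u : ℕ → Fin k`
are represented by positions, `E u n i j` says that the factors of length `n` at `i` and `j`
coincide.
-/

set_option autoImplicit false

namespace Pool.Agent.Rauzy

variable {k : ℕ}

/-- The factors of length `n` at positions `i` and `j` coincide. -/
def E (u : ℕ → Fin k) (n i j : ℕ) : Prop := ∀ l : ℕ, l < n → u (i + l) = u (j + l)

lemma E.refl (u : ℕ → Fin k) (n i : ℕ) : E u n i i := fun _ _ => rfl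

lemma E.symm {u : ℕ → Fin k} {n i j : ℕ} (h : E u n i j) : E u n j i := fun l hl => (h l hl).symm

lemma E.trans {u : ℕ → Fin k} {n i j m : ℕ} (h : E u n i j) (h' : E u n j m) : E u n i m :=
  fun l hl => (h l hl).trans (h' l hl)

lemma E.mono {u : ℕ → Fin k} {n m i j : ℕ} (h : E u n i j) (hm : m ≤ n) : E u m i j :=
  fun l hl => h l (lt_of_lt_of_le hl hm)

/-- shift -/
lemma E.shift {u : ℕ → Fin k} {n i j : ℕ} (t m : ℕ) (h : E u n i j) (hm : t + m ≤ n) :
    E u m (i + t) (j + t) := by
  intro l hl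
  have := h (t + l) (by omega)
  rw [Nat.add_assoc, Nat.add_assoc]
  exact this

lemma E.get {u : ℕ → Fin k} {n i j : ℕ} (h : E u n i j) (l : ℕ) (hl : l < n) :
    u (i + l) = u (j + l) := h l hl

/-- glue two overlapping coincidences -/
lemma E.glue {u : ℕ → Fin k} {n m t i j : ℕ} (h : E u n i j) (h' : E u m (i + t) (j + t))
    (ht : t ≤ n) : E u (t + m) i j := by
  intro l hl
  by_cases h1 : l < n
  · exact h l h1
  · have := h' (l - t) (by omega)
    have e1 : i + t + (l - t) = i + l := by omega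
    have e2 : j + t + (l - t) = j + l := by omega
    rw [e1, e2] at this
    exact this

lemma E.succ {u : ℕ → Fin k} {n i j : ℕ} (h : E u n i j) (h' : u (i + n) = u (j + n)) :
    E u (n + 1) i j := by
  intro l hl
  by_cases h1 : l < n
  · exact h l h1
  · have : l = n := by omega
    subst this
    exact h'

lemma E.cons {u : ℕ → Fin k} {n i j : ℕ} (h' : u i = u j) (h : E u n (i + 1) (j + 1)) :
    E u (n + 1) i j := by
  intro l hl
  rcases Nat.eq_zero_or_pos l with h1 | h1
  · subst h1; simpa using h'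
  · have := h (l - 1) (by omega)
    have e1 : i + 1 + (l - 1) = i + l := by omega
    have e2 : j + 1 + (l - 1) = j + l := by omega
    rw [e1, e2] at this
    exact this

/-- The factor of length `n` at position `i`. -/
def fac (u : ℕ → Fin k) (n i : ℕ) : Fin n → Fin k := fun l => u (i + l)

lemma fac_eq_iff {u : ℕ → Fin k} {n i j : ℕ} : fac u n i = fac u n j ↔ E u n i j := by
  constructor
  · intro h l hl
    exact congrFun h ⟨l, hl⟩
  · intro h
    funext l
    exact h l l.2

open Classical in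
/-- The set of factors of length `n`. -/
noncomputable def F (u : ℕ → Fin k) (n : ℕ) : Finset (Fin n → Fin k) :=
  Finset.univ.filter (fun w => ∃ i, fac u n i = w)

lemma mem_F {u : ℕ → Fin k} {n : ℕ} {w : Fin n → Fin k} : w ∈ F u n ↔ ∃ i, fac u n i = w := by
  classical
  simp [F]

lemma fac_mem_F (u : ℕ → Fin k) (n i : ℕ) : fac u n i ∈ F u n := mem_F.2 ⟨i, rfl⟩

/-- The complexity function. -/
noncomputable def p (u : ℕ → Fin k) (n : ℕ) : ℕ := (F u n).card

/-- Multiples of a period of a finite stretch. -/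
lemma period_mul {u : ℕ → Fin k} {j L r : ℕ} (hper : ∀ i, i + r < L → u (j + i + r) = u (j + i)) :
    ∀ q s : ℕ, s + r * q < L → u (j + (s + r * q)) = u (j + s) := by
  intro q
  induction q with
  | zero => intro s _; simp
  | succ q ih =>
    intro s hs
    have h1 : s + r * (q + 1) = s + r * q + r := by ring
    rw [h1] at hs ⊢
    have := hper (s + r * q) hs
    rw [← Nat.add_assoc j (s + r * q) r, this]
    exact ih s (by omega)

/-- The context: not purely periodic, every window of length `c n` contains all factors of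
length `n` for all `n ≥ N`. -/
structure Ctx (u : ℕ → Fin k) (c : ℝ) (N : ℕ) : Prop where
  np : ¬ ∃ p : ℕ, 0 < p ∧ ∀ i : ℕ, u (i + p) = u i
  win : ∀ n, N ≤ n → ∀ i j, ∃ t : ℕ, ((t + n : ℕ) : ℝ) ≤ c * (n : ℝ) ∧ E u n (j + t) i
  hN : 1 ≤ N
  c3 : 3 ≤ c
  cL : c < (5 + Real.sqrt 5) / 2

section
variable {u : ℕ → Fin k} {c : ℝ} {N : ℕ}

/-- recurrence -/
lemma Ctx.recur (H : Ctx u c N) (n i j : ℕ) : ∃ z, j ≤ z ∧ E u n z i := by
  obtain ⟨t, _, ht⟩ := H.win (max n N) (le_max_right _ _) i j
  exact ⟨j + t, Nat.le_add_right _ _, ht.mono (le_max_left _ _)⟩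

/-- window, in the form: every interval `[j, j+G]` of positions contains an occurrence -/
lemma Ctx.window (H : Ctx u c N) {n : ℕ} (hn : N ≤ n) (G : ℕ) (hG : (c - 1) * n < G + 1)
    (i j : ℕ) : ∃ z, j ≤ z ∧ z ≤ j + G ∧ E u n z i := by
  obtain ⟨t, ht, hE⟩ := H.win n hn i j
  refine ⟨j + t, Nat.le_add_right _ _, ?_, hE⟩
  have : (t : ℝ) < G + 1 := by
    push_cast at ht
    nlinarith
  have : t < G + 1 := by exact_mod_cast this
  omega

lemma Ctx.not_evper (H : Ctx u c N) : ¬ ∃ i r, 0 < r ∧ ∀ t, u (i + t + r) = u (i + t) := by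
  rintro ⟨i, r, hr, h⟩
  apply H.np
  refine ⟨r, hr, fun x => ?_⟩
  obtain ⟨z, hz, hE⟩ := H.recur (x + r + 1) 0 i
  have h1 := hE (x + r) (by omega)
  have h2 := hE x (by omega)
  obtain ⟨d, rfl⟩ := Nat.exists_eq_add_of_le hz
  have h3 := h (d + x)
  have e1 : i + (d + x) + r = i + d + (x + r) := by ring
  have e2 : i + (d + x) = i + d + x := by ring
  rw [e1, e2] at h3
  rw [h1, h2] at h3
  simpa using h3

/-- The counting observation. -/
lemma Ctx.count (H : Ctx u c N) {n j L r : ℕ} (hn : N ≤ n) (hr : 1 ≤ r)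
    (hper : ∀ i, i + r < L → u (j + i + r) = u (j + i)) (hp : r < p u n) :
    (L : ℝ) + p u n ≤ c * n + r := by
  classical
  set m := ⌊c * (n : ℝ)⌋₊ with hm
  have hsub : F u n ⊆ (Finset.range r ∪ Finset.Ico (L + 1 - n) (m + 1 - n)).image
      (fun t => fac u n (j + t)) := by
    intro w hw
    obtain ⟨i, rfl⟩ := mem_F.1 hw
    obtain ⟨t, ht, hE⟩ := H.win n hn i j
    have htm : t + n ≤ m := Nat.le_floor ht
    rw [Finset.mem_image]
    by_cases h1 : t + n ≤ L
    · refine ⟨t % r, ?_, ?_⟩
      · rw [Finset.mem_union, Finset.mem_range]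
        exact Or.inl (Nat.mod_lt _ hr)
      · rw [fac_eq_iff]
        refine E.trans ?_ hE
        intro l hl
        have hq := period_mul hper (t / r) (t % r + l) (by
          have := Nat.mod_add_div t r
          omega)
        have e1 : j + (t % r + l + r * (t / r)) = j + t + l := by
          have := Nat.mod_add_div t r
          omega
        rw [e1] at hq
        rw [hq, ← Nat.add_assoc]
    · refine ⟨t, ?_, ?_⟩
      · rw [Finset.mem_union, Finset.mem_Ico]
        right
        omega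
      · rw [fac_eq_iff]; exact hE
  have hcard := Finset.card_le_card hsub
  have h2 : p u n ≤ r + ((m + 1 - n) - (L + 1 - n)) := by
    refine le_trans hcard (le_trans Finset.card_image_le ?_)
    refine le_trans (Finset.card_union_le _ _) ?_
    simp
  have h3 : L + p u n ≤ m + r := by omega
  have h4 : (m : ℝ) ≤ c * n := Nat.floor_le (by have := H.c3; positivity)
  have h5 : ((L + p u n : ℕ) : ℝ) ≤ ((m + r : ℕ) : ℝ) := by exact_mod_cast h3
  push_cast at h5
  linarith

/-- Existence of right special factors. -/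
lemma Ctx.exists_rs (H : Ctx u c N) (n : ℕ) : ∃ i j, E u n i j ∧ u (i + n) ≠ u (j + n) := by
  classical
  by_contra hcon
  push Not at hcon
  have hinj : ¬ Function.Injective (fac u n) := not_injective_infinite_finite _
  rw [Function.Injective] at hinj
  push Not at hinj
  obtain ⟨i, j, hij, hne⟩ := hinj
  rw [fac_eq_iff] at hij
  have key : ∀ i j, E u n i j → ∀ t, E u (n + t) i j := by
    intro i j h t
    induction t with
    | zero => exact h
    | succ t ih =>
      have h1 : E u n (i + t) (j + t) := ih.shift t n (by omega)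
      have h2 := hcon _ _ h1
      refine E.succ ih ?_
      have e1 : i + t + n = i + (n + t) := by ring
      have e2 : j + t + n = j + (n + t) := by ring
      rw [e1, e2] at h2
      exact h2
  apply H.not_evper
  rcases lt_or_gt_of_ne hne with h | h
  · refine ⟨i, j - i, by omega, fun t => ?_⟩
    have := key i j hij (t + 1) t (by omega)
    rw [this]
    congr 1
    omega
  · refine ⟨j, i - j, by omega, fun t => ?_⟩
    have := key i j hij (t + 1) t (by omega)
    rw [← this]
    congr 1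
    omega

end

/-! ### fibres of maps between finite sets -/

lemma pair_aux {α β : Type*} [DecidableEq α] [DecidableEq β] (S : Finset α) (g : α → β)
    (h : S.card ≤ (S.image g).card + 1) {x x' z z' : α} (hx : x ∈ S) (hx' : x' ∈ S)
    (hz : z ∈ S) (hz' : z' ∈ S) (hne : x ≠ x') (hg : g x = g x') (hne' : z ≠ z')
    (hg' : g z = g z') : z' = x ∨ z' = x' := by
  by_contra hcon
  push Not at hcon
  obtain ⟨h1, h2⟩ := hcon
  have hsub : S.image g ⊆ ((S.erase x').erase z').image g := by
    intro y hy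
    rw [Finset.mem_image] at hy ⊢
    obtain ⟨a, ha, rfl⟩ := hy
    by_cases ha1 : a = x'
    · subst ha1
      refine ⟨x, ?_, hg⟩
      simp only [Finset.mem_erase]
      exact ⟨fun h => h1 h.symm, hne, hx⟩
    · by_cases ha2 : a = z'
      · subst ha2
        by_cases hzx : z = x'
        · refine ⟨x, ?_, ?_⟩
          · simp only [Finset.mem_erase]
            exact ⟨fun h => h1 h.symm, hne, hx⟩
          · rw [hg, ← hzx, hg']
        · refine ⟨z, ?_, hg'⟩
          simp only [Finset.mem_erase]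
          exact ⟨hne', hzx, hz⟩
      · refine ⟨a, ?_, rfl⟩
        simp only [Finset.mem_erase]
        exact ⟨ha2, ha1, ha⟩
  have hc1 := Finset.card_le_card hsub
  have hc2 : (((S.erase x').erase z').image g).card ≤ ((S.erase x').erase z').card :=
    Finset.card_image_le
  have hm1 : z' ∈ S.erase x' := Finset.mem_erase.2 ⟨h2, hz'⟩
  have hc3 := Finset.card_erase_of_mem hm1
  have hc4 := Finset.card_erase_of_mem hx'
  have hpos : 0 < (S.erase x').card := Finset.card_pos.2 ⟨z', hm1⟩
  omega

lemma pair_fibre {α β : Type*} [DecidableEq α] [DecidableEq β] (S : Finset α) (g : α → β)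
    (h : S.card ≤ (S.image g).card + 1) {x x' z z' : α} (hx : x ∈ S) (hx' : x' ∈ S)
    (hz : z ∈ S) (hz' : z' ∈ S) (hne : x ≠ x') (hg : g x = g x') (hne' : z ≠ z')
    (hg' : g z = g z') : (z = x ∨ z = x') ∧ (z' = x ∨ z' = x') :=
  ⟨pair_aux S g h hx hx' hz' hz hne hg hne'.symm hg'.symm,
    pair_aux S g h hx hx' hz hz' hne hg hne' hg'⟩

lemma one_fibre {α β : Type*} [DecidableEq α] [DecidableEq β] (S : Finset α) (g : α → β) (x : α)
    (h : ∀ z ∈ S, ∀ z' ∈ S, z ≠ z' → g z = g z' → z = x ∨ z' = x) :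
    S.card ≤ (S.image g).card + 1 := by
  have hinj : Set.InjOn g (S.erase x : Finset α) := by
    intro z hz z' hz' hg
    by_contra hne
    rw [Finset.mem_coe, Finset.mem_erase] at hz hz'
    rcases h z hz.2 z' hz'.2 hne hg with h1 | h1
    · exact hz.1 h1
    · exact hz'.1 h1
  have h1 := Finset.card_image_of_injOn hinj
  have h2 : (S.erase x).image g ⊆ S.image g := Finset.image_subset_image (Finset.erase_subset _ _)
  have h3 := Finset.card_le_card h2
  have h4 : S.card - 1 ≤ (S.erase x).card := Finset.pred_card_le_card_erase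
  omega

/-- drop the last letter -/
def dropL {n : ℕ} (w : Fin (n + 1) → Fin k) : Fin n → Fin k := fun l => w l.castSucc

/-- drop the first letter -/
def dropF {n : ℕ} (w : Fin (n + 1) → Fin k) : Fin n → Fin k := fun l => w l.succ

lemma dropL_fac (u : ℕ → Fin k) (n i : ℕ) : dropL (fac u (n + 1) i) = fac u n i := by
  funext l
  simp [dropL, fac]

lemma dropF_fac (u : ℕ → Fin k) (n i : ℕ) : dropF (fac u (n + 1) i) = fac u n (i + 1) := by
  funext l
  simp only [dropF, fac, Fin.val_succ]
  congr 1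
  ring

lemma image_dropL (u : ℕ → Fin k) (n : ℕ) [DecidableEq (Fin n → Fin k)] :
    (F u (n + 1)).image dropL = F u n := by
  ext w
  rw [Finset.mem_image]
  constructor
  · rintro ⟨v, hv, rfl⟩
    obtain ⟨i, rfl⟩ := mem_F.1 hv
    rw [dropL_fac]; exact fac_mem_F _ _ _
  · intro hw
    obtain ⟨i, rfl⟩ := mem_F.1 hw
    exact ⟨fac u (n + 1) i, fac_mem_F _ _ _, dropL_fac _ _ _⟩

section
variable {u : ℕ → Fin k} {c : ℝ} {N : ℕ}

lemma Ctx.image_dropF (H : Ctx u c N) (n : ℕ) [DecidableEq (Fin n → Fin k)] :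
    (F u (n + 1)).image dropF = F u n := by
  ext w
  rw [Finset.mem_image]
  constructor
  · rintro ⟨v, hv, rfl⟩
    obtain ⟨i, rfl⟩ := mem_F.1 hv
    rw [dropF_fac]; exact fac_mem_F _ _ _
  · intro hw
    obtain ⟨i, rfl⟩ := mem_F.1 hw
    obtain ⟨z, hz, hE⟩ := H.recur n i 1
    refine ⟨fac u (n + 1) (z - 1), fac_mem_F _ _ _, ?_⟩
    rw [dropF_fac, fac_eq_iff]
    have : z - 1 + 1 = z := by omega
    rw [this]; exact hE

lemma fac_ne {n i j : ℕ} (h : u (i + n) ≠ u (j + n)) : fac u (n + 1) i ≠ fac u (n + 1) j := by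
  intro he
  rw [fac_eq_iff] at he
  exact h (he n (by omega))

lemma fac_ne' {n i j : ℕ} (h : u i ≠ u j) : fac u (n + 1) i ≠ fac u (n + 1) j := by
  intro he
  rw [fac_eq_iff] at he
  exact h (by simpa using he 0 (by omega))

lemma Ctx.p_succ (H : Ctx u c N) (n : ℕ) : p u n + 1 ≤ p u (n + 1) := by
  classical
  obtain ⟨i, j, hE, hne⟩ := H.exists_rs n
  have h1 : ((F u (n + 1)).image dropL).card ≤ (F u (n + 1)).card := Finset.card_image_le
  have h2 : ((F u (n + 1)).image dropL).card ≠ (F u (n + 1)).card := by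
    intro he
    rw [Finset.card_image_iff] at he
    have := he (fac_mem_F u (n + 1) i) (fac_mem_F u (n + 1) j) (by
      rw [dropL_fac, dropL_fac, fac_eq_iff]; exact hE)
    exact fac_ne hne this
  rw [image_dropL] at h1 h2
  unfold p
  omega

lemma Ctx.p_add (H : Ctx u c N) (n t : ℕ) : p u n + t ≤ p u (n + t) := by
  induction t with
  | zero => simp
  | succ t ih =>
    have := H.p_succ (n + t)
    have e : n + (t + 1) = n + t + 1 := by ring
    rw [e]; omega

lemma Ctx.p_gt (H : Ctx u c N) (n : ℕ) : n < p u n := by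
  have h0 : 0 < p u 0 := Finset.card_pos.2 ⟨fac u 0 0, fac_mem_F u 0 0⟩
  have := H.p_add 0 n
  rw [Nat.zero_add] at this
  omega

/-- a repetition of period `r ≥ N` has length `< c r`. -/
lemma Ctx.rep (H : Ctx u c N) {j L r : ℕ} (hr : N ≤ r)
    (hper : ∀ i, i + r < L → u (j + i + r) = u (j + i)) : (L : ℝ) + 1 ≤ c * r := by
  have h1 := H.p_gt r
  have h2 := H.count hr (by have := H.hN; omega) hper h1
  have h3 : (r : ℝ) + 1 ≤ p u r := by exact_mod_cast h1
  linarith

/-- long repetitions have large periods. -/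
lemma Ctx.rep_large (H : Ctx u c N) {j L r : ℕ} (hr : 0 < r)
    (hper : ∀ i, i + r < L → u (j + i + r) = u (j + i)) (hL : c * (N * N) ≤ L) : N ≤ r := by
  by_contra hlt
  push Not at hlt
  have hN := H.hN
  have hrN : N ≤ r * N := by nlinarith
  have h1 := H.rep (j := j) (L := L) hrN (by
    intro i hi
    have := period_mul hper N i (by simpa using hi)
    rw [← Nat.add_assoc] at this
    exact this)
  have h2 : ((r * N : ℕ) : ℝ) ≤ N * N := by
    push_cast
    have : (r : ℝ) ≤ N := by exact_mod_cast hlt.le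
    have hN0 : (0 : ℝ) ≤ N := by positivity
    nlinarith
  have h3 : (0 : ℝ) ≤ c := by have := H.c3; linarith
  nlinarith

/-- the two previous lemmas together -/
lemma Ctx.rep' (H : Ctx u c N) {j L r : ℕ} (hr : 0 < r)
    (hper : ∀ i, i + r < L → u (j + i + r) = u (j + i)) (hL : c * (N * N) ≤ L) :
    (L : ℝ) + 1 ≤ c * r :=
  H.rep (H.rep_large hr hper hL) hper

/-- periodicity from a coincidence of factors -/
lemma per_of_E {n i r : ℕ} (h : E u n i (i + r)) :
    ∀ x, x + r < n + r → u (i + x + r) = u (i + x) := by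
  intro x hx
  have := h x (by omega)
  rw [this]
  congr 1
  ring

/-- right special at position `i` -/
def RS (u : ℕ → Fin k) (n i : ℕ) : Prop := ∃ j j', E u n j i ∧ E u n j' i ∧ u (j + n) ≠ u (j' + n)

/-- left special at position `i` -/
def LS (u : ℕ → Fin k) (n i : ℕ) : Prop := ∃ j j', E u n (j + 1) i ∧ E u n (j' + 1) i ∧ u j ≠ u j'

lemma RS.congr {n i i' : ℕ} (h : RS u n i) (hE : E u n i i') : RS u n i' := by
  obtain ⟨j, j', h1, h2, h3⟩ := h
  exact ⟨j, j', h1.trans hE, h2.trans hE, h3⟩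

lemma LS.congr {n i i' : ℕ} (h : LS u n i) (hE : E u n i i') : LS u n i' := by
  obtain ⟨j, j', h1, h2, h3⟩ := h
  exact ⟨j, j', h1.trans hE, h2.trans hE, h3⟩

lemma RS.suffix {n i : ℕ} (t : ℕ) (h : RS u (n + t) i) : RS u n (i + t) := by
  obtain ⟨j, j', h1, h2, h3⟩ := h
  refine ⟨j + t, j' + t, h1.shift t n (by omega), h2.shift t n (by omega), ?_⟩
  have e1 : j + t + n = j + (n + t) := by ring
  have e2 : j' + t + n = j' + (n + t) := by ring
  rw [e1, e2]; exact h3

lemma Ctx.exists_RS (H : Ctx u c N) (n : ℕ) : ∃ i, RS u n i := by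
  obtain ⟨i, j, h1, h2⟩ := H.exists_rs n
  exact ⟨i, i, j, E.refl _ _ _, h1.symm, h2⟩

/-- pair lemma, right version -/
lemma pairR {n i j i' j' : ℕ} (hs : p u (n + 1) ≤ p u n + 1) (h : E u n i j)
    (hne : u (i + n) ≠ u (j + n)) (h' : E u n i' j') (hne' : u (i' + n) ≠ u (j' + n)) :
    (E u (n + 1) i' i ∨ E u (n + 1) i' j) ∧ (E u (n + 1) j' i ∨ E u (n + 1) j' j) := by
  classical
  have hs' : (F u (n + 1)).card ≤ ((F u (n + 1)).image dropL).card + 1 := by
    rw [image_dropL]; exact hs
  have := pair_fibre (F u (n + 1)) dropL hs' (fac_mem_F u _ i) (fac_mem_F u _ j)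
    (fac_mem_F u _ i') (fac_mem_F u _ j') (fac_ne hne)
    (by rw [dropL_fac, dropL_fac, fac_eq_iff]; exact h) (fac_ne hne')
    (by rw [dropL_fac, dropL_fac, fac_eq_iff]; exact h')
  simpa only [fac_eq_iff] using this

/-- pair lemma, left version -/
lemma Ctx.pairL (H : Ctx u c N) {n i j i' j' : ℕ} (hs : p u (n + 1) ≤ p u n + 1)
    (h : E u n (i + 1) (j + 1)) (hne : u i ≠ u j) (h' : E u n (i' + 1) (j' + 1))
    (hne' : u i' ≠ u j') :
    (E u (n + 1) i' i ∨ E u (n + 1) i' j) ∧ (E u (n + 1) j' i ∨ E u (n + 1) j' j) := by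
  classical
  have hs' : (F u (n + 1)).card ≤ ((F u (n + 1)).image dropF).card + 1 := by
    rw [H.image_dropF]; exact hs
  have := pair_fibre (F u (n + 1)) dropF hs' (fac_mem_F u _ i) (fac_mem_F u _ j)
    (fac_mem_F u _ i') (fac_mem_F u _ j') (fac_ne' hne)
    (by rw [dropF_fac, dropF_fac, fac_eq_iff]; exact h) (fac_ne' hne')
    (by rw [dropF_fac, dropF_fac, fac_eq_iff]; exact h')
  simpa only [fac_eq_iff] using this

/-- uniqueness of the right special factor -/
lemma RS.unique {n i i' : ℕ} (hs : p u (n + 1) ≤ p u n + 1) (h : RS u n i) (h' : RS u n i') :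
    E u n i i' := by
  obtain ⟨j, j', h1, h2, h3⟩ := h
  obtain ⟨l, l', h4, h5, h6⟩ := h'
  rcases (pairR hs (h4.trans h5.symm) h6 (h1.trans h2.symm) h3).1 with h7 | h7
  · exact h1.symm.trans ((h7.mono (by omega)).trans h4)
  · exact h1.symm.trans ((h7.mono (by omega)).trans h5)

/-- uniqueness of the left special factor -/
lemma Ctx.LS_unique (H : Ctx u c N) {n i i' : ℕ} (hs : p u (n + 1) ≤ p u n + 1) (h : LS u n i)
    (h' : LS u n i') : E u n i i' := by
  obtain ⟨j, j', h1, h2, h3⟩ := h
  obtain ⟨l, l', h4, h5, h6⟩ := h'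
  rcases (H.pairL hs (h4.trans h5.symm) h6 (h1.trans h2.symm) h3).1 with h7 | h7
  · exact h1.symm.trans ((h7.shift 1 n (by omega)).trans h4)
  · exact h1.symm.trans ((h7.shift 1 n (by omega)).trans h5)

end

end Pool.Agent.Rauzy
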