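import Pool.Agent.H.MP_505085_co.Stage

/-!
For large `n`, `p(n+1) - p(n) ≤ 1` implies `p(n+2) - p(n+1) ≤ 1`.
-/

set_option autoImplicit false

namespace Pool.Agent.Rauzy

variable {k : ℕ} {u : ℕ → Fin k} {c : ℝ} {N : ℕ}

lemma bool5 : ∀ x1 x2 x3 x4 x5 : Bool,
    (∀ s, ¬ (x1 = s ∧ x2 = s ∧ x3 = s)) → (∀ s, ¬ (x2 = s ∧ x3 = s ∧ x4 = s)) →
    (∀ s, ¬ (x3 = s ∧ x4 = s ∧ x5 = s)) →
    (∀ s, (x1 = s ∧ x2 = s) ∨ (x2 = s ∧ x3 = s) ∨ (x3 = s ∧ x4 = s) ∨ (x4 = s ∧ x5 = s)) →
    x5 = x1 := by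
  intro x1 x2 x3 x4 x5 h1 h2 h3 h4
  have a1 := h1 true
  have b1 := h1 false
  have a2 := h2 true
  have b2 := h2 false
  have a3 := h3 true
  have b3 := h3 false
  have a4 := h4 true
  have b4 := h4 false
  clear h1 h2 h3 h4
  revert a1 b1 a2 b2 a3 b3 a4 b4
  cases x1 <;> cases x2 <;> cases x3 <;> cases x4 <;> cases x5 <;> simp

section stage
variable {n : ℕ} {q : ℕ → ℕ} {col : ℕ → Bool} {len : Bool → ℕ}

lemma Stage.mixed (S : Stage u n q col len) (H : Ctx u c N) (hLS : LS u n (q 0))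
    (hn : c * (N * N) ≤ n) (hn' : N + 20 ≤ n)
    (hsq : ∀ s, ∃ m, col m = s ∧ col (m + 1) = s) : False := by
  have hc := H.c_lt
  have hc3 := H.c3
  have hn20 : (20 : ℝ) ≤ n := by
    have : 20 ≤ n := by omega
    exact_mod_cast this
  -- 1. lengths are large
  have hlen : ∀ s, (n : ℝ) + 1 ≤ 1.6181 * len s := by
    intro s
    obtain ⟨m, h0, h1⟩ := hsq s
    obtain ⟨hN, h2⟩ := S.sq H h0 h1 hn
    have h3 : (len s : ℝ) + 1 ≤ p u (len s) := by exact_mod_cast H.p_gt (len s)
    have h4 : (0 : ℝ) ≤ len s := by positivity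
    nlinarith
  -- 2. window
  obtain ⟨G, hG1, hG2⟩ : ∃ G : ℕ, (c - 1) * ((n + 2 : ℕ) : ℝ) < G + 1 ∧
      (G : ℝ) ≤ 2.6181 * (n + 2) := by
    refine ⟨⌊(c - 1) * ((n + 2 : ℕ) : ℝ)⌋₊, Nat.lt_floor_add_one _, ?_⟩
    refine le_trans (Nat.floor_le (mul_nonneg (by linarith) (by positivity))) ?_
    push_cast
    nlinarith
  have hwin := S.pair_window H hLS (by omega) G hG1
  -- 3. total length
  have htot : 2 * (len true + len false) ≤ G + 1 := by
    obtain ⟨mF, hF0, hF1⟩ := hsq false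
    obtain ⟨mT, hT0, hT1⟩ := hsq true
    obtain ⟨m, hm, h0, h1⟩ := S.pair_recur H hLS mF (q 0 + len true + len false + 1)
    rw [hF0] at h0
    rw [hF1] at h1
    have h2 := S.ge m
    have h3 := S.mono (Nat.lt_succ_self m)
    simp only [Nat.succ_eq_add_one] at h3
    obtain ⟨m', h4, h5, h6, h7⟩ := hwin mT (q (m + 1) - len true - len false + 1) (by omega)
    rw [hT0] at h6
    rw [hT1] at h7
    have e1 := S.step m
    have e2 := S.step (m + 1)
    have e3 := S.step m'
    have e4 := S.step (m' + 1)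
    rw [h0] at e1
    rw [h1] at e2
    rw [h6] at e3
    rw [h7] at e4
    have n1 : m' ≠ m := by rintro rfl; rw [h0] at h6; exact absurd h6 (by simp)
    have n2 : m' ≠ m + 1 := by rintro rfl; rw [h1] at h6; exact absurd h6 (by simp)
    have n3 : m' + 1 ≠ m := by rintro rfl; rw [h0] at h7; exact absurd h7 (by simp)
    have hcase : m + 2 ≤ m' ∨ m' + 2 ≤ m := by omega
    rcases hcase with h8 | h8
    · have h9 : q (m + 1 + 1) ≤ q m' := S.mono.monotone h8
      omega
    · have h9 : q (m' + 1 + 1) ≤ q m := S.mono.monotone h8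
      omega
  have htot' : 2 * ((len true : ℝ) + len false) ≤ G + 1 := by exact_mod_cast htot
  -- 4. no cubes
  have hcube : ∀ m s, ¬ (col m = s ∧ col (m + 1) = s ∧ col (m + 2) = s) := by
    rintro m s ⟨h0, h1, h2⟩
    have h3 := S.cube H h0 h1 h2 hn
    have h4 : (len s : ℝ) + 1 ≤ p u (len s) := by exact_mod_cast H.p_gt (len s)
    have h5 : (0 : ℝ) ≤ len s := by positivity
    have h6 : (n : ℝ) + 1 ≤ 0.6181 * len s := by nlinarith
    have h7 : 2 * (len s : ℝ) ≤ G + 1 := by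
      have hT : (0 : ℝ) ≤ len true := by positivity
      have hF : (0 : ℝ) ≤ len false := by positivity
      cases s <;> linarith
    linarith
  -- 5. squares in every window
  have hsqw : ∀ s m, (col (m + 1) = s ∧ col (m + 2) = s) ∨ (col (m + 2) = s ∧ col (m + 3) = s) ∨
      (col (m + 3) = s ∧ col (m + 4) = s) ∨ (col (m + 4) = s ∧ col (m + 5) = s) := by
    intro s m
    obtain ⟨ms, hs0, hs1⟩ := hsq s
    have hq0 : q 0 ≤ q (m + 1) := S.mono.monotone (by omega)
    obtain ⟨m', h1, h2, h3, h4⟩ := hwin ms (q (m + 1) + 1) (by omega)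
    rw [hs0] at h3
    rw [hs1] at h4
    have h5 : m + 1 < m' + 1 := by rw [← S.mono.lt_iff_lt]; omega
    have h6 : m' + 1 < m + 6 := by
      rw [← S.mono.lt_iff_lt]
      have e1 := S.step (m + 1)
      have e2 := S.step (m + 2)
      have e3 := S.step (m + 3)
      have e4 := S.step (m + 4)
      have e5 := S.step (m + 5)
      have l1 := hlen (col (m + 1))
      have l2 := hlen (col (m + 2))
      have l3 := hlen (col (m + 3))
      have l4 := hlen (col (m + 4))
      have l5 := hlen (col (m + 5))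
      have e6 : m + 1 + 1 = m + 2 := rfl
      have e7 : m + 2 + 1 = m + 3 := rfl
      have e8 : m + 3 + 1 = m + 4 := rfl
      have e9 : m + 4 + 1 = m + 5 := rfl
      have e10 : m + 5 + 1 = m + 6 := rfl
      rw [e6] at e1
      rw [e7] at e2
      rw [e8] at e3
      rw [e9] at e4
      rw [e10] at e5
      have hq6 : (q (m + 6) : ℝ) = q (m + 1) + (len (col (m + 1)) + len (col (m + 2)) +
          len (col (m + 3)) + len (col (m + 4)) + len (col (m + 5))) := by
        rw [e5, e4, e3, e2, e1]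
        push_cast
        ring
      have h2' : (q (m' + 1) : ℝ) ≤ q (m + 1) + 1 + G := by exact_mod_cast h2
      have : (q (m' + 1) : ℝ) < q (m + 6) := by
        rw [hq6]
        linarith
      exact_mod_cast this
    have h7 : m' = m + 1 ∨ m' = m + 2 ∨ m' = m + 3 ∨ m' = m + 4 := by omega
    rcases h7 with rfl | rfl | rfl | rfl
    · exact Or.inl ⟨h3, h4⟩
    · exact Or.inr (Or.inl ⟨h3, h4⟩)
    · exact Or.inr (Or.inr (Or.inl ⟨h3, h4⟩))
    · exact Or.inr (Or.inr (Or.inr ⟨h3, h4⟩))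
  -- 6. periodicity
  apply S.not_evper H hn
  refine ⟨1, 4, by omega, fun m hm => ?_⟩
  obtain ⟨m, rfl⟩ : ∃ m', m = m' + 1 := ⟨m - 1, by omega⟩
  exact bool5 (col (m + 1)) (col (m + 2)) (col (m + 3)) (col (m + 4)) (col (m + 5))
    (fun s => hcube (m + 1) s) (fun s => hcube (m + 2) s) (fun s => hcube (m + 3) s)
    (fun s => hsqw s m)

end stage

/-- two right special factors -/
lemma exists_two_rs {n : ℕ} (hs : p u (n + 1) ≤ p u n + 1) (hs' : ¬ p u (n + 2) ≤ p u (n + 1) + 1)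
    (hRS : ∃ i, RS u (n + 1) i) :
    ∃ i₁ i₂, RS u (n + 1) i₁ ∧ RS u (n + 1) i₂ ∧ ¬ E u (n + 1) i₁ i₂ := by
  classical
  by_contra hcon
  push Not at hcon
  apply hs'
  obtain ⟨i, hi⟩ := hRS
  obtain ⟨j, j', hj, hj', hjj'⟩ := hi
  have key := one_fibre (F u (n + 2)) (dropL (n := n + 1)) (fac u (n + 2) j) (by
    intro z hz z' hz' hne hd
    obtain ⟨s, rfl⟩ := mem_F.1 hz
    obtain ⟨s', rfl⟩ := mem_F.1 hz'
    rw [dropL_fac, dropL_fac, fac_eq_iff] at hd
    have hne' : u (s + (n + 1)) ≠ u (s' + (n + 1)) := by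
      intro h
      exact hne (fac_eq_iff.2 (E.succ hd h))
    have hRSs : RS u (n + 1) s := ⟨s, s', E.refl _ _ _, hd.symm, hne'⟩
    have hRSj : RS u (n + 1) j := ⟨j, j', E.refl _ _ _, hj'.trans hj.symm, hjj'⟩
    have hsj : E u (n + 1) s j := hcon _ _ hRSs hRSj
    have e1 : ∀ t, t + 1 + n = t + (n + 1) := fun t => by ring
    have h1 : E u n (s + 1) (s' + 1) := hd.shift 1 n (by omega)
    have h2 : E u n (j + 1) (j' + 1) := (hj.trans hj'.symm).shift 1 n (by omega)
    have h3 := (pairR hs h1 (by rw [e1, e1]; exact hne') h2 (by rw [e1, e1]; exact hjj')).1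
    rcases h3 with h3 | h3
    · left
      rw [fac_eq_iff]
      refine E.succ hsj ?_
      have := h3 n (by omega)
      rw [e1, e1] at this
      exact this.symm
    · right
      rw [fac_eq_iff]
      refine E.succ (hd.symm.trans hsj) ?_
      have := h3 n (by omega)
      rw [e1, e1] at this
      exact this.symm)
  rw [image_dropL] at key
  exact key

theorem Ctx.case_mixed (H : Ctx u c N) :
    ∃ M, ∀ n, M ≤ n → p u (n + 1) ≤ p u n + 1 → p u (n + 2) ≤ p u (n + 1) + 1 := by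
  obtain ⟨M, hM⟩ := exists_nat_gt (c * (N * N) + N + 20 : ℝ)
  refine ⟨M, fun n hn hs => ?_⟩
  by_contra hs'
  have hnM : (M : ℝ) ≤ n := by exact_mod_cast hn
  have hN0 : (0 : ℝ) ≤ N := by positivity
  have hc3 := H.c3
  have hcN : 0 ≤ c * (N * N) := by positivity
  have hn1 : c * (N * N) ≤ n := by linarith
  have hn2 : N + 20 ≤ n := by
    have : ((N + 20 : ℕ) : ℝ) ≤ n := by push_cast; linarith
    exact_mod_cast this
  obtain ⟨i₁, i₂, h1, h2, h12⟩ := exists_two_rs hs hs' (H.exists_RS (n + 1))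
  have h1' := h1.suffix 1
  have h2' := h2.suffix 1
  have hE := RS.unique hs h1' h2'
  have hu : u i₁ ≠ u i₂ := fun h => h12 (E.cons h hE)
  obtain ⟨q, col, len, S, hq0⟩ := H.exists_stage hs h1'
  have hLS1 : LS u n (i₁ + 1) := ⟨i₁, i₂, E.refl _ _ _, hE.symm, hu⟩
  have hLS : LS u n (q 0) := hLS1.congr hq0.symm
  apply S.mixed H hLS hn1 hn2
  -- all squares occur
  have key : ∀ i, RS u (n + 1) i → E u n (i + 1) (q 0) → ∃ m m', col m = col m' ∧
      col (m + 1) ≠ col (m' + 1) ∧ u (q (m + 1) - 1) = u i := by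
    intro i hi hiq
    obtain ⟨j, j', hj, hj', hjj'⟩ := hi
    have key2 : ∀ j, E u (n + 1) j i → ∃ m, u (q (m + 1) - 1) = u i ∧
        u (q (m + 1) + n) = u (j + (n + 1)) := by
      intro j hj
      obtain ⟨z, hz, hzE⟩ := H.recur (n + 2) j (q 0)
      have h3 : E u n (z + 1) (q 0) :=
        ((hzE.shift 1 n (by omega)).trans (hj.shift 1 n (by omega))).trans hiq
      obtain ⟨m, hm⟩ := S.later h3 (by omega)
      refine ⟨m, ?_, ?_⟩
      · rw [hm]
        have h4 := hzE 0 (by omega)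
        have h5 := hj 0 (by omega)
        simp only [Nat.add_zero] at h4 h5
        simp only [Nat.add_sub_cancel]
        rw [h4, h5]
      · rw [hm]
        have := hzE (n + 1) (by omega)
        have e : z + 1 + n = z + (n + 1) := by ring
        rw [e]; exact this
    obtain ⟨m, hm1, hm2⟩ := key2 j hj
    obtain ⟨m', hm1', hm2'⟩ := key2 j' hj'
    refine ⟨m, m', S.left H hLS m m' (hm1.trans hm1'.symm), ?_, hm1⟩
    intro he
    have h6 := S.next _ _ he
    have h7 := S.pos (col (m + 1))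
    have h8 := h6 n (by omega)
    rw [hm2, hm2'] at h8
    exact hjj' h8
  obtain ⟨m₁, m₁', a1, a2, a3⟩ := key i₁ h1 hq0.symm
  obtain ⟨m₂, m₂', b1, b2, b3⟩ := key i₂ h2 (hE.symm.trans hq0.symm)
  have hne : col m₁ ≠ col m₂ := by
    intro he
    have := S.left_of he
    rw [a3, b3] at this
    exact hu this
  intro s
  have hs12 : s = col m₁ ∨ s = col m₂ := by
    revert hne
    cases s <;> cases col m₁ <;> cases col m₂ <;> simp
  have fin : ∀ m m', s = col m → col m = col m' → col (m + 1) ≠ col (m' + 1) →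
      ∃ m, col m = s ∧ col (m + 1) = s := by
    intro m m' g1 g2 g3
    by_cases g4 : col (m + 1) = s
    · exact ⟨m, g1.symm, g4⟩
    · refine ⟨m', (g1.trans g2).symm, ?_⟩
      revert g3 g4
      cases s <;> cases col (m + 1) <;> cases col (m' + 1) <;> simp
  rcases hs12 with h | h
  · exact fin m₁ m₁' h a1 a2
  · exact fin m₂ m₂' h b1 b2

end Pool.Agent.Rauzy
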