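import Pool.Agent.H.MP_505085_co.CaseMixed

/-!
The case `p(n+1) - p(n) = 1` for all large `n`.
-/

set_option autoImplicit false

namespace Pool.Agent.Rauzy

variable {k : ℕ} {u : ℕ → Fin k} {c : ℝ} {N : ℕ}

/-- bispecial factors exist at arbitrarily large lengths -/
lemma Ctx.exists_bispecial (H : Ctx u c N) {n1 : ℕ}
    (hs : ∀ n, n1 ≤ n → p u (n + 1) ≤ p u n + 1) (M₀ : ℕ) :
    ∃ n, M₀ ≤ n ∧ ∃ i, RS u n i ∧ LS u n i := by
  by_contra hcon
  push Not at hcon
  obtain ⟨M, hM⟩ := exists_nat_gt ((M₀ : ℝ) + n1 + N + c * (N * N))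
  have hN0 : (0 : ℝ) ≤ N := by positivity
  have hM0 : (0 : ℝ) ≤ M₀ := by positivity
  have hn10 : (0 : ℝ) ≤ n1 := by positivity
  have hc3 := H.c3
  have hcN : 0 ≤ c * (N * N) := by positivity
  have hM1 : M₀ ≤ M := by
    have : (M₀ : ℝ) ≤ M := by linarith
    exact_mod_cast this
  have hM2 : n1 ≤ M := by
    have : (n1 : ℝ) ≤ M := by linarith
    exact_mod_cast this
  have hM3 : N ≤ M := by
    have : (N : ℝ) ≤ M := by linarith
    exact_mod_cast this
  have hM4 : c * (N * N) ≤ M := by linarith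
  -- extension to the left
  have ext : ∀ i, RS u M i → ∀ t, t ≤ i → RS u (M + t) (i - t) := by
    intro i hi t
    induction t with
    | zero => intro _; exact hi
    | succ t ih =>
      intro ht
      have h1 := ih (by omega)
      obtain ⟨x, hx⟩ := H.exists_RS (M + t + 1)
      have h2 : E u (M + t) (x + 1) (i - t) :=
        RS.unique (hs (M + t) (by omega)) (hx.suffix 1) h1
      have h3 : u x = u (i - (t + 1)) := by
        by_contra hne
        apply hcon (M + t) (by omega) (i - t) h1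
        refine ⟨x, i - (t + 1), h2, ?_, hne⟩
        have e : i - (t + 1) + 1 = i - t := by omega
        rw [e]; exact E.refl _ _ _
      have h4 : E u (M + t + 1) x (i - (t + 1)) := by
        apply E.cons h3
        have e : i - (t + 1) + 1 = i - t := by omega
        rw [e]; exact h2
      exact hx.congr h4
  obtain ⟨i₀, hi₀⟩ := H.exists_RS M
  -- window
  obtain ⟨G, hG1⟩ : ∃ G : ℕ, (c - 1) * ((M : ℕ) : ℝ) < G + 1 :=
    ⟨⌊(c - 1) * ((M : ℕ) : ℝ)⌋₊, Nat.lt_floor_add_one _⟩
  obtain ⟨A, hA⟩ := exists_nat_gt (c * (G + 1 : ℝ))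
  obtain ⟨i, hi, hiE⟩ := H.recur M i₀ A
  obtain ⟨j, hj1, hj2, hjE⟩ := H.window hM3 G hG1 i₀ (i + 1)
  have hRi := hi₀.congr hiE.symm
  have hRj := hi₀.congr hjE.symm
  have h1 := ext i hRi i le_rfl
  have h2 := ext j hRj i (by omega)
  rw [Nat.sub_self] at h1
  have h3 := RS.unique (hs (M + i) (by omega)) h1 h2
  have h4 : E u (M + i) 0 (0 + (j - i)) := by rw [Nat.zero_add]; exact h3
  have h5 := H.rep' (j := 0) (L := M + i + (j - i)) (r := j - i) (by omega) (per_of_E h4) (by
    push_cast
    have g1 : (0 : ℝ) ≤ i := by positivity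
    have g2 : (0 : ℝ) ≤ ((j - i : ℕ) : ℝ) := by positivity
    linarith)
  have h6 : ((j - i : ℕ) : ℝ) ≤ G + 1 := by
    have : j - i ≤ G + 1 := by omega
    exact_mod_cast this
  have h7 : (A : ℝ) ≤ i := by exact_mod_cast hi
  push_cast at h5
  have h8 : (0 : ℝ) ≤ ((j - i : ℕ) : ℝ) := by positivity
  have h9 : c * ((j - i : ℕ) : ℝ) ≤ c * (G + 1) := mul_le_mul_of_nonneg_left h6 (by linarith)
  have h10 : (0 : ℝ) ≤ M := by positivity
  linarith

section stage
variable {n : ℕ} {q : ℕ → ℕ} {col : ℕ → Bool} {len : Bool → ℕ}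

lemma Stage.no_between (S : Stage u n q col len) (m t : ℕ) (h0 : 0 < t) (h1 : t < len (col m)) :
    ¬ E u n (q m + t) (q 0) := by
  intro hE
  obtain ⟨m', hm'⟩ := S.all _ 0 hE
  have h2 : m < m' := by rw [← S.mono.lt_iff_lt]; omega
  have h3 : m' < m + 1 := by rw [← S.mono.lt_iff_lt, S.step]; omega
  omega

/-- backward determinism -/
lemma back {i₀ : ℕ} (hL : ∀ i j, E u n (i + 1) (j + 1) → u i ≠ u j → E u n (i + 1) i₀) :
    ∀ x i j, E u n (i + x) (j + x) → (∀ y, 0 < y → y ≤ x → ¬ E u n (i + y) i₀) →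
      E u (n + x) i j := by
  intro x
  induction x with
  | zero => intro i j h _; exact h
  | succ x ih =>
    intro i j h hno
    have h1 : u (i + x) = u (j + x) := by
      by_contra hne
      exact hno (x + 1) (by omega) le_rfl (hL (i + x) (j + x) h hne)
    have h2 : E u (n + 1) (i + x) (j + x) := E.cons h1 h
    have h3 := ih i j (h2.mono (by omega)) (fun y hy hy' => hno y hy (by omega))
    have h4 := h3.glue h2 (by omega)
    have e : x + (n + 1) = n + (x + 1) := by ring
    rw [e] at h4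
    exact h4

lemma Stage.compare (S : Stage u n q col len)
    (hL : ∀ i j, E u n (i + 1) (j + 1) → u i ≠ u j → E u n (i + 1) (q 0))
    {m m' t t' : ℕ} (ht : t < len (col m)) (ht' : t' < len (col m')) (htt : t ≤ t')
    (hE : E u n (q m + t) (q m' + t')) : t = t' ∧ E u (n + t) (q m) (q m') := by
  have h1 : E u n (q m + t) (q m' + (t' - t) + t) := by
    have e : q m' + (t' - t) + t = q m' + t' := by omega
    rw [e]; exact hE
  have h2 := back hL t (q m) (q m' + (t' - t)) h1
    (fun y hy hy' => S.no_between m y hy (by omega))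
  by_cases h3 : t = t'
  · refine ⟨h3, ?_⟩
    subst h3
    simpa using h2
  · exfalso
    have h4 : E u n (q m' + (t' - t)) (q m) := (h2.mono (by omega)).symm
    exact S.no_between m' (t' - t) (by omega) (by omega) (h4.trans (S.mem m 0))

/-- the two cycles of the Rauzy graph are disjoint outside the bispecial factor -/
lemma Stage.cycles (S : Stage u n q col len) (H : Ctx u c N) (hs : p u (n + 1) ≤ p u n + 1)
    (hLS : LS u n (q 0)) : len true + len false ≤ p u n + 1 := by
  classical
  have hL : ∀ i j, E u n (i + 1) (j + 1) → u i ≠ u j → E u n (i + 1) (q 0) := by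
    intro i j hE hne
    exact H.LS_unique hs ⟨i, j, E.refl _ _ _, hE.symm, hne⟩ hLS
  obtain ⟨mT, _, hT⟩ := S.inf true 0
  obtain ⟨mF, _, hF⟩ := S.inf false 0
  set A := (Finset.range (len true)).image (fun t => fac u n (q mT + t)) with hA
  set B := (Finset.Ico 1 (len false)).image (fun t => fac u n (q mF + t)) with hB
  have hself : ∀ m t t', t < len (col m) → t' < len (col m) → fac u n (q m + t) =
      fac u n (q m + t') → t = t' := by
    intro m t t' ht ht' h
    rw [fac_eq_iff] at h
    rcases le_total t t' with h1 | h1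
    · exact (S.compare hL ht ht' h1 h).1
    · exact (S.compare hL ht' ht h1 h.symm).1.symm
  have hAc : A.card = len true := by
    rw [hA, Finset.card_image_of_injOn, Finset.card_range]
    intro t ht t' ht' h
    rw [Finset.coe_range, Set.mem_Iio] at ht ht'
    exact hself mT t t' (by rw [hT]; exact ht) (by rw [hT]; exact ht') h
  have hBc : B.card = len false - 1 := by
    rw [hB, Finset.card_image_of_injOn, Nat.card_Ico]
    intro t ht t' ht' h
    rw [Finset.coe_Ico, Set.mem_Ico] at ht ht'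
    exact hself mF t t' (by rw [hF]; exact ht.2) (by rw [hF]; exact ht'.2) h
  have hne : ∀ m m' t t', col m ≠ col m' → t < len (col m) → t' < len (col m') → 0 < t' → t ≤ t' →
      ¬ E u n (q m + t) (q m' + t') := by
    intro m m' t t' hc ht ht' h0 htt hE
    obtain ⟨h1, h2⟩ := S.compare hL ht ht' htt hE
    apply hc
    apply S.letter
    exact h2 n (by omega)
  have hdisj : Disjoint A B := by
    rw [Finset.disjoint_left]
    intro w hw hw'
    rw [hA, Finset.mem_image] at hw
    rw [hB, Finset.mem_image] at hw'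
    obtain ⟨t, ht, rfl⟩ := hw
    obtain ⟨t', ht', h⟩ := hw'
    rw [Finset.mem_range] at ht
    rw [Finset.mem_Ico] at ht'
    rw [fac_eq_iff] at h
    have hc : col mT ≠ col mF := by rw [hT, hF]; simp
    rcases le_or_gt t t' with h1 | h1
    · exact hne mT mF t t' hc (by rw [hT]; exact ht) (by rw [hF]; exact ht'.2) ht'.1 h1 h.symm
    · exact hne mF mT t' t hc.symm (by rw [hF]; exact ht'.2) (by rw [hT]; exact ht)
        (by omega) h1.le h
  have hsub : A ∪ B ⊆ F u n := by
    intro w hw
    rw [Finset.mem_union, hA, hB, Finset.mem_image, Finset.mem_image] at hw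
    rcases hw with ⟨t, _, rfl⟩ | ⟨t, _, rfl⟩ <;> exact fac_mem_F _ _ _
  have h1 := Finset.card_le_card hsub
  rw [Finset.card_union_of_disjoint hdisj, hAc, hBc] at h1
  have h2 := S.pos false
  unfold p
  omega

/-- exactly one of the two squares occurs -/
lemma Stage.one_square (S : Stage u n q col len) (H : Ctx u c N)
    (hs' : p u (n + 2) ≤ p u (n + 1) + 1) (hLS : LS u n (q 0)) (hn : c * (N * N) ≤ n) :
    ∃ s, (∃ m, col m = s ∧ col (m + 1) = s) ∧ ∀ m, ¬ (col m = !s ∧ col (m + 1) = !s) := by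
  -- not both
  have hboth : ¬ ∀ s, ∃ m, col m = s ∧ col (m + 1) = s := by
    intro hall
    -- change from `s` to `!s`
    have hch : ∀ s : Bool, ∃ m, col m = s ∧ col (m + 1) = !s := by
      intro s
      by_contra hno
      push Not at hno
      obtain ⟨m₀, _, hm₀⟩ := S.inf s 0
      have h1 : ∀ t, col (m₀ + t) = s := by
        intro t
        induction t with
        | zero => exact hm₀
        | succ t ih =>
          have := hno (m₀ + t) ih
          rw [← Nat.add_assoc]
          revert this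
          cases col (m₀ + t + 1) <;> cases s <;> simp
      obtain ⟨m₁, h2, h3⟩ := S.inf (!s) m₀
      obtain ⟨t, rfl⟩ := Nat.exists_eq_add_of_le h2
      rw [h1 t] at h3
      revert h3
      cases s <;> simp
    have hrs : ∀ s : Bool, ∃ i, RS u (n + 1) i ∧ ∃ m, col m = s ∧ i = q (m + 1) - 1 := by
      intro s
      obtain ⟨m, h1, h2⟩ := hall s
      obtain ⟨m', h3, h4⟩ := hch s
      refine ⟨q (m + 1) - 1, ⟨q (m + 1) - 1, q (m' + 1) - 1, E.refl _ _ _, ?_, ?_⟩, m, h1, rfl⟩
      · have hp1 : 0 < q (m + 1) := lt_of_le_of_lt (Nat.zero_le _) (S.mono (Nat.lt_succ_self m))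
        have hp2 : 0 < q (m' + 1) := lt_of_le_of_lt (Nat.zero_le _) (S.mono (Nat.lt_succ_self m'))
        apply E.cons
        · exact S.left_of (by rw [h1, h3])
        · have e1 : q (m + 1) - 1 + 1 = q (m + 1) := by omega
          have e2 : q (m' + 1) - 1 + 1 = q (m' + 1) := by omega
          rw [e1, e2]
          exact S.mem _ _
      · have hp1 : 0 < q (m + 1) := lt_of_le_of_lt (Nat.zero_le _) (S.mono (Nat.lt_succ_self m))
        have hp2 : 0 < q (m' + 1) := lt_of_le_of_lt (Nat.zero_le _) (S.mono (Nat.lt_succ_self m'))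
        have e1 : q (m + 1) - 1 + (n + 1) = q (m + 1) + n := by omega
        have e2 : q (m' + 1) - 1 + (n + 1) = q (m' + 1) + n := by omega
        rw [e1, e2]
        intro h
        have := S.letter _ _ h
        rw [h2, h4] at this
        revert this
        cases s <;> simp
    obtain ⟨i, hi, m, hm, rfl⟩ := hrs true
    obtain ⟨i', hi', m', hm', rfl⟩ := hrs false
    have h1 := RS.unique hs' hi hi'
    have h2 := h1 0 (by omega)
    simp only [Nat.add_zero] at h2
    have h3 := S.left H hLS m m' h2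
    rw [hm, hm'] at h3
    exact absurd h3 (by simp)
  -- at least one
  have hone : ∃ s, ∃ m, col m = s ∧ col (m + 1) = s := by
    by_contra hno
    push Not at hno
    apply S.not_evper H hn
    refine ⟨0, 2, by omega, fun m _ => ?_⟩
    have h1 := hno (col m) m rfl
    have h2 := hno (col (m + 1)) (m + 1) rfl
    have e : m + 1 + 1 = m + 2 := rfl
    rw [e] at h2
    revert h1 h2
    cases col m <;> cases col (m + 1) <;> cases col (m + 2) <;> simp
  push Not at hboth
  obtain ⟨s, hs⟩ := hboth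
  obtain ⟨s', m, hm1, hm2⟩ := hone
  have hss : s = !s' := by
    have : s ≠ s' := by
      rintro rfl
      exact hs m hm1 hm2
    revert this
    cases s <;> cases s' <;> simp
  refine ⟨s', ⟨m, hm1, hm2⟩, ?_⟩
  rintro m ⟨h1, h2⟩
  rw [← hss] at h1 h2
  exact hs m h1 h2

/-- `s (!s) s (!s) s` occurs if `(!s)(!s)` and `sss` do not -/
lemma Stage.alt5 (S : Stage u n q col len) (H : Ctx u c N) (hn : c * (N * N) ≤ n) {s : Bool}
    (hno : ∀ m, ¬ (col m = !s ∧ col (m + 1) = !s))
    (hcube : ∀ m, ¬ (col m = s ∧ col (m + 1) = s ∧ col (m + 2) = s)) :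
    ∃ m, col m = s ∧ col (m + 1) = !s ∧ col (m + 2) = s ∧ col (m + 3) = !s ∧ col (m + 4) = s := by
  by_contra hcon
  push Not at hcon
  apply S.not_evper H hn
  refine ⟨1, 3, by omega, fun m hm => ?_⟩
  obtain ⟨m, rfl⟩ : ∃ m', m = m' + 1 := ⟨m - 1, by omega⟩
  have a0 := hno m
  have a1 := hno (m + 1)
  have a2 := hno (m + 2)
  have a3 := hno (m + 3)
  have a4 := hno (m + 4)
  have b0 := hcube m
  have b1 := hcube (m + 1)
  have b2 := hcube (m + 2)
  have b3 := hcube (m + 3)
  have d0 := hcon m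
  have d1 := hcon (m + 1)
  have e1 : m + 1 + 1 = m + 2 := rfl
  have e2 : m + 2 + 1 = m + 3 := rfl
  have e3 : m + 3 + 1 = m + 4 := rfl
  have e4 : m + 4 + 1 = m + 5 := rfl
  have e5 : m + 1 + 2 = m + 3 := rfl
  have e6 : m + 2 + 2 = m + 4 := rfl
  have e7 : m + 3 + 2 = m + 5 := rfl
  have e8 : m + 1 + 3 = m + 4 := rfl
  have e9 : m + 1 + 4 = m + 5 := rfl
  simp only [e1, e2, e3, e4] at *
  revert a0 a1 a2 a3 a4 b0 b1 b2 b3 d0 d1
  cases s <;> cases col m <;> cases col (m + 1) <;> cases col (m + 2) <;> cases col (m + 3) <;>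
    cases col (m + 4) <;> cases col (m + 5) <;> simp

end stage

/-- The case `p(n+1) - p(n) ≤ 1` for all large `n` is impossible. -/
theorem Ctx.case_one (H : Ctx u c N) {n1 : ℕ} (hs : ∀ n, n1 ≤ n → p u (n + 1) ≤ p u n + 1) :
    False := by
  have hc := H.c_lt
  have hc3 := H.c3
  have hcL := H.cL
  set γ : ℝ := (Real.sqrt 5 - 1) / 2 with hγ
  have h5 : Real.sqrt 5 * Real.sqrt 5 = 5 := Real.mul_self_sqrt (by norm_num)
  have h5' : 2 < Real.sqrt 5 := by
    rw [Real.lt_sqrt (by norm_num)]; norm_num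
  have hγ1 : γ * γ + γ = 1 := by rw [hγ]; nlinarith
  have hγ0 : 0 < γ := by rw [hγ]; linarith
  have hΛ : (5 + Real.sqrt 5) / 2 = 3 + γ := by rw [hγ]; ring
  rw [hΛ] at hcL
  set δ : ℝ := 3 + γ - c with hδ
  have hδ0 : 0 < δ := by rw [hδ]; linarith
  -- complexity
  have hp : ∀ t, p u (n1 + t) = p u n1 + t := by
    intro t
    induction t with
    | zero => rfl
    | succ t ih =>
      have h1 := hs (n1 + t) (by omega)
      have h2 := H.p_succ (n1 + t)
      have e : n1 + (t + 1) = n1 + t + 1 := by ring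
      rw [e]; omega
  have hp' : ∀ n m, n1 ≤ n → n1 ≤ m → p u n + m = p u m + n := by
    intro n m hn hm
    obtain ⟨t, rfl⟩ := Nat.exists_eq_add_of_le hn
    obtain ⟨t', rfl⟩ := Nat.exists_eq_add_of_le hm
    rw [hp, hp]; ring
  -- choice of the level
  obtain ⟨M₀, hM₀⟩ := exists_nat_gt (c * (N * N) + N + 2 * n1 + 20 + 2 / δ)
  obtain ⟨n, hn, i, hRS, hLS⟩ := H.exists_bispecial hs M₀
  have hnM : (M₀ : ℝ) ≤ n := by exact_mod_cast hn
  have hN0 : (0 : ℝ) ≤ N := by positivity
  have hn10 : (0 : ℝ) ≤ n1 := by positivity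
  have hcN : 0 ≤ c * (N * N) := by positivity
  have hδ2 : 0 < 2 / δ := by positivity
  have hn1 : c * (N * N) ≤ n := by linarith
  have hn2 : 2 * (n1 : ℝ) ≤ n := by linarith
  have hn2' : 2 * n1 ≤ n := by exact_mod_cast hn2
  have hn3 : 2 / δ < n := by linarith
  have hn20 : (20 : ℝ) ≤ n := by linarith
  have hn4 : 2 < δ * n := by
    rw [div_lt_iff₀ hδ0] at hn3; linarith
  obtain ⟨q, col, len, S, hq0⟩ := H.exists_stage (hs n (by omega)) hRS
  have hLS' : LS u n (q 0) := hLS.congr hq0.symm
  have hcyc := S.cycles H (hs n (by omega)) hLS'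
  obtain ⟨s, ⟨m, hm0, hm1⟩, hno⟩ := S.one_square H (hs (n + 1) (by omega)) hLS' hn1
  have hab : len (!s) + len s ≤ p u n + 1 := by
    cases s
    · simpa using hcyc
    · simp only [Bool.not_true]
      omega
  obtain ⟨hNb, hsq⟩ := S.sq H hm0 hm1 hn1
  set a := len (!s) with ha
  set b := len s with hb
  have hb0 : (0 : ℝ) ≤ b := by positivity
  have ha0 : (0 : ℝ) ≤ a := by positivity
  have hbn : (n : ℝ) ≤ 2 * b := by
    have h1 : (b : ℝ) + 1 ≤ p u b := by exact_mod_cast H.p_gt b
    nlinarith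
  have hbn' : n ≤ 2 * b := by exact_mod_cast hbn
  have hbn1 : n1 ≤ b := by omega
  have hpb : (p u b : ℝ) + n = p u n + b := by
    have := hp' b n hbn1 (by omega)
    exact_mod_cast this
  have hab' : (a : ℝ) + b ≤ p u n + 1 := by exact_mod_cast hab
  have h1 : (a : ℝ) + 3 * b - 1 ≤ c * b := by linarith
  have hδb : 1 < δ * b := by nlinarith
  rcases le_or_gt (γ * b) a with hcase | hcase
  · -- first case
    have : δ * b ≤ 1 := by rw [hδ]; nlinarith
    linarith
  · by_cases hcube : ∃ m, col m = s ∧ col (m + 1) = s ∧ col (m + 2) = s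
    · obtain ⟨m, g0, g1, g2⟩ := hcube
      have h2 := S.cube H g0 g1 g2 hn1
      rw [← hb] at h2
      nlinarith
    · push Not at hcube
      have hcube' : ∀ m, ¬ (col m = s ∧ col (m + 1) = s ∧ col (m + 2) = s) := by
        rintro m ⟨g0, g1, g2⟩
        exact hcube m g0 g1 g2
      obtain ⟨m, g0, g1, g2, g3, g4⟩ := S.alt5 H hn1 hno hcube'
      obtain ⟨r, hr, hNr, hrep⟩ := S.rep H (m := m) (K := 2) (J := 3) (by omega) (by
        intro t ht
        have : t = 0 ∨ t = 1 ∨ t = 2 := by omega
        rcases this with rfl | rfl | rfl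
        · simp only [Nat.add_zero]; rw [g0, g2]
        · have e : m + 2 + 1 = m + 3 := rfl
          rw [e, g1, g3]
        · have e : m + 2 + 2 = m + 4 := rfl
          rw [e, g2, g4]) hn1
      have e1 := S.step m
      have e2 := S.step (m + 1)
      have e3 := S.step (m + 2)
      have e4 := S.step (m + 3)
      have e5 := S.step (m + 4)
      have f1 : m + 1 + 1 = m + 2 := rfl
      have f2 : m + 2 + 1 = m + 3 := rfl
      have f3 : m + 3 + 1 = m + 4 := rfl
      have f4 : m + 4 + 1 = m + 5 := rfl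
      have f5 : m + 2 + 3 = m + 5 := rfl
      rw [g0, ← hb] at e1
      rw [f1, g1, ← ha] at e2
      rw [f2, g2, ← hb] at e3
      rw [f3, g3, ← ha] at e4
      rw [f4, g4, ← hb] at e5
      rw [f5] at hrep
      have hrab : r = a + b := by omega
      have hq5 : (q (m + 5) : ℝ) = q m + (3 * b + 2 * a) := by
        rw [e5, e4, e3, e2, e1]; push_cast; ring
      rw [hq5, hrab] at hrep
      have hpr : (p u (a + b) : ℝ) + n = p u n + (a + b) := by
        have := hp' (a + b) n (by omega) (by omega)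
        exact_mod_cast this
      push_cast at hrep
      have h2 : 3 * ((a : ℝ) + b) + b - 1 ≤ c * (a + b) := by linarith
      have h3 : γ * ((a : ℝ) + b) ≤ b := by
        have : γ * (a : ℝ) ≤ γ * (γ * b) := mul_le_mul_of_nonneg_left hcase.le hγ0.le
        nlinarith
      have h4 : δ * ((a : ℝ) + b) ≤ 1 := by rw [hδ]; nlinarith
      nlinarith

/-- The context is contradictory. -/
theorem Ctx.false (H : Ctx u c N) : False := by
  by_cases h : ∃ n1, ∀ n, n1 ≤ n → p u n + 2 ≤ p u (n + 1)
  · obtain ⟨n1, hn1⟩ := h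
    exact H.case_two n1 hn1
  · push Not at h
    obtain ⟨M, hM⟩ := H.case_mixed
    obtain ⟨n, hn, hn'⟩ := h M
    have key : ∀ t, p u (n + t + 1) ≤ p u (n + t) + 1 := by
      intro t
      induction t with
      | zero => simp only [Nat.add_zero]; omega
      | succ t ih => exact hM (n + t) (by omega) ih
    apply H.case_one (n1 := n)
    intro m hm
    obtain ⟨t, rfl⟩ := Nat.exists_eq_add_of_le hm
    exact key t

end Pool.Agent.Rauzy
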