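import Pool.Agent.H.MP_505085_co.Basic

/-!
Case `p(n+1) - p(n) ≥ 2` for all large `n`.
-/

set_option autoImplicit false

namespace Pool.Agent.Rauzy

variable {k : ℕ} {u : ℕ → Fin k} {c : ℝ} {N : ℕ}

/-- `q` enumerates the occurrences of the factor of length `n` at position `i₀`. -/
structure Occ (u : ℕ → Fin k) (n i₀ : ℕ) (q : ℕ → ℕ) : Prop where
  mono : StrictMono q
  mem : ∀ m, E u n (q m) i₀
  all : ∀ i, E u n i i₀ → ∃ m, q m = i

lemma Ctx.exists_occ (H : Ctx u c N) (n i₀ : ℕ) : ∃ q, Occ u n i₀ q := by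
  classical
  have hinf : ({i | E u n i i₀}).Infinite := by
    rw [Set.infinite_iff_exists_gt]
    intro a
    obtain ⟨z, hz, hE⟩ := H.recur n i₀ (a + 1)
    exact ⟨z, hE, by omega⟩
  refine ⟨Nat.nth (fun i => E u n i i₀), Nat.nth_strictMono hinf, ?_, ?_⟩
  · intro m
    exact Nat.nth_mem_of_infinite hinf m
  · intro i hi
    exact ⟨Nat.count (fun i => E u n i i₀) i, Nat.nth_count hi⟩

lemma Ctx.c_lt (H : Ctx u c N) : c < 3.6181 := by
  have h := H.cL
  have h5 : Real.sqrt 5 < 2.2362 := by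
    rw [Real.sqrt_lt' (by norm_num)]
    norm_num
  linarith

/-- Two occurrences of a long factor are far apart. -/
lemma Ctx.gap_basic (H : Ctx u c N) {n i g : ℕ} (hg : 0 < g) (hE : E u n i (i + g))
    (hn : c * (N * N) ≤ n) : N ≤ g ∧ (n : ℝ) + g + 1 ≤ c * g := by
  have hL : c * (N * N) ≤ ((n + g : ℕ) : ℝ) := by
    push_cast
    have : (0 : ℝ) ≤ g := by positivity
    linarith
  have hper := per_of_E hE
  have h1 := H.rep_large hg hper hL
  have h2 := H.rep h1 hper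
  push_cast at h2
  exact ⟨h1, h2⟩

lemma Ctx.p_two (H : Ctx u c N) {n1 : ℕ} (hs : ∀ n, n1 ≤ n → p u n + 2 ≤ p u (n + 1)) (n : ℕ) :
    2 * n ≤ p u n + n1 := by
  by_cases h : n1 ≤ n
  · obtain ⟨t, rfl⟩ := Nat.exists_eq_add_of_le h
    clear h
    induction t with
    | zero =>
      have := H.p_gt n1
      simp only [Nat.add_zero]
      omega
    | succ t ih =>
      have := hs (n1 + t) (by omega)
      have e : n1 + (t + 1) = n1 + t + 1 := by ring
      rw [e]
      omega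
  · have := H.p_gt n
    omega

/-- In case two, two occurrences of a long factor are very far apart. -/
lemma Ctx.gap_two (H : Ctx u c N) {n1 : ℕ} (hs : ∀ n, n1 ≤ n → p u n + 2 ≤ p u (n + 1))
    {n i g : ℕ} (hg : 0 < g) (hE : E u n i (i + g)) (hn : c * (N * N) ≤ n) (hn' : 6 * N ≤ n) :
    1.236 * (n : ℝ) ≤ g + (3 * n1 + 2) := by
  obtain ⟨hgN, h1⟩ := H.gap_basic hg hE hn
  have hc := H.c_lt
  have hc3 := H.c3
  have hn'' : 6 * (N : ℝ) ≤ n := by exact_mod_cast hn'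
  have hg0 : (0 : ℝ) < g := by exact_mod_cast hg
  have h2 : 2 * (N : ℝ) ≤ g := by nlinarith
  have h2' : 2 * N ≤ g := by exact_mod_cast h2
  set N' := (g + n1) / 2 + 1 with hN'
  have h3 : g + n1 + 1 ≤ 2 * N' := by omega
  have h4 : 2 * N' ≤ g + n1 + 2 := by omega
  have h5 := H.p_two hs N'
  have h6 : N ≤ N' := by omega
  have h7 := H.count (j := i) (L := n + g) (r := g) h6 hg (per_of_E hE) (by omega)
  push_cast at h7
  have h5' : 2 * (N' : ℝ) ≤ p u N' + n1 := by exact_mod_cast h5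
  have h4' : 2 * (N' : ℝ) ≤ g + n1 + 2 := by exact_mod_cast h4
  have hn1 : (0 : ℝ) ≤ n1 := by positivity
  have hN0 : (0 : ℝ) ≤ N' := by positivity
  nlinarith

/-- The case `p(n+1) - p(n) ≥ 2` for all large `n` is impossible. -/
theorem Ctx.case_two (H : Ctx u c N) (n1 : ℕ) (hs : ∀ n, n1 ≤ n → p u n + 2 ≤ p u (n + 1)) :
    False := by
  have hc := H.c_lt
  have hc3 := H.c3
  -- the scale
  obtain ⟨x, hx⟩ := exists_nat_gt (c * (N * N) + 6 * N + 10 * (3 * n1 + 2) + 20 : ℝ)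
  set K : ℝ := 3 * n1 + 2 with hK
  have hK0 : 0 ≤ K := by positivity
  have hcN : 0 ≤ c * (N * N) := by positivity
  have hN0 : (0 : ℝ) ≤ N := by positivity
  have hx1 : c * (N * N) ≤ x := by linarith
  have hx2 : 6 * (N : ℝ) ≤ x := by linarith
  have hx2' : 6 * N ≤ x := by exact_mod_cast hx2
  have hx3 : 10 * K + 20 < x := by linarith
  have hx0 : (0 : ℝ) ≤ x := by positivity
  have hNx : N ≤ x := by omega
  -- gaps
  have gap4 : ∀ i g, 0 < g → E u (4 * x) i (i + g) → 4.944 * (x : ℝ) ≤ g + K := by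
    intro i g hg hE
    have := H.gap_two hs hg hE (by push_cast; linarith) (by omega)
    push_cast at this
    linarith
  have gap5 : ∀ i g, 0 < g → E u (5 * x) i (i + g) → 6.18 * (x : ℝ) ≤ g + K := by
    intro i g hg hE
    have := H.gap_two hs hg hE (by push_cast; linarith) (by omega)
    push_cast at this
    linarith
  -- windows
  obtain ⟨G, hG1, hG2⟩ : ∃ G : ℕ, (c - 1) * ((4 * x + 1 : ℕ) : ℝ) < G + 1 ∧
      (G : ℝ) ≤ 10.4724 * x + 2.6181 := by
    refine ⟨⌊(c - 1) * ((4 * x + 1 : ℕ) : ℝ)⌋₊, Nat.lt_floor_add_one _, ?_⟩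
    refine le_trans (Nat.floor_le (mul_nonneg (by linarith) (by positivity))) ?_
    push_cast
    nlinarith
  obtain ⟨G', hG'1, hG'2⟩ : ∃ G : ℕ, (c - 1) * ((5 * x : ℕ) : ℝ) < G + 1 ∧
      (G : ℝ) ≤ 13.0905 * x := by
    refine ⟨⌊(c - 1) * ((5 * x : ℕ) : ℝ)⌋₊, Nat.lt_floor_add_one _, ?_⟩
    refine le_trans (Nat.floor_le (mul_nonneg (by linarith) (by positivity))) ?_
    push_cast
    nlinarith
  have win4 := fun i j => H.window (n := 4 * x + 1) (by omega) G hG1 i j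
  have win5 := fun i j => H.window (n := 5 * x) (by omega) G' hG'1 i j
  -- the right special factor
  obtain ⟨i₁, hRS⟩ := H.exists_RS (5 * x)
  obtain ⟨q, hq⟩ := H.exists_occ (4 * x) (i₁ + x)
  have hgap : ∀ m, 4.944 * (x : ℝ) ≤ (q (m + 1) : ℝ) - q m + K := by
    intro m
    have h1 := hq.mono (Nat.lt_succ_self m)
    have h2 := gap4 (q m) (q (m + 1) - q m) (by simp only [Nat.succ_eq_add_one] at h1; omega) (by
      have e : q m + (q (m + 1) - q m) = q (m + 1) := by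
        simp only [Nat.succ_eq_add_one] at h1; omega
      rw [e]
      exact (hq.mem m).trans (hq.mem (m + 1)).symm)
    rw [Nat.cast_sub (by simp only [Nat.succ_eq_add_one] at h1; omega)] at h2
    linarith
  -- (α)
  have alpha : ∀ m j, E u (4 * x) j (i₁ + x) → ∃ m', (m' = m + 1 ∨ m' = m + 2) ∧
      u (q m' + 4 * x) = u (j + 4 * x) ∧ q m' ≤ q m + 1 + G := by
    intro m j hj
    obtain ⟨z, hz1, hz2, hz3⟩ := win4 j (q m + 1)
    obtain ⟨m', hm'⟩ := hq.all z ((hz3.mono (by omega)).trans hj)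
    refine ⟨m', ?_, ?_, by omega⟩
    · have h1 : m < m' := by
        rw [← hq.mono.lt_iff_lt]; omega
      have h2 : m' < m + 3 := by
        rw [← hq.mono.lt_iff_lt]
        have g1 := hgap m
        have g2 := hgap (m + 1)
        have g3 := hgap (m + 2)
        have hz2' : (z : ℝ) ≤ q m + 1 + G := by exact_mod_cast hz2
        have : (q m' : ℝ) < q (m + 3) := by
          rw [hm']
          have e1 : m + 1 + 1 = m + 2 := rfl
          have e2 : m + 2 + 1 = m + 3 := rfl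
          rw [e1] at g2
          rw [e2] at g3
          linarith
        exact_mod_cast this
      omega
    · rw [hm']
      exact hz3 (4 * x) (by omega)
  -- (β)
  obtain ⟨j₁, j₂, hj₁, hj₂, hj₁₂⟩ := RS.suffix (u := u) (n := 4 * x) (i := i₁) x (by
    have e : 4 * x + x = 5 * x := by ring
    rw [e]; exact hRS)
  have beta : ∀ m, u (q (m + 1) + 4 * x) ≠ u (q (m + 2) + 4 * x) ∧
      ((u (q (m + 1) + 4 * x) = u (j₁ + 4 * x) ∧ u (q (m + 2) + 4 * x) = u (j₂ + 4 * x)) ∨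
       (u (q (m + 1) + 4 * x) = u (j₂ + 4 * x) ∧ u (q (m + 2) + 4 * x) = u (j₁ + 4 * x))) := by
    intro m
    obtain ⟨a, ha, ha', _⟩ := alpha m j₁ hj₁
    obtain ⟨b, hb, hb', _⟩ := alpha m j₂ hj₂
    rcases ha with rfl | rfl <;> rcases hb with rfl | rfl
    · exact absurd (ha'.symm.trans hb') hj₁₂
    · exact ⟨by rw [ha', hb']; exact hj₁₂, Or.inl ⟨ha', hb'⟩⟩
    · exact ⟨by rw [ha', hb']; exact hj₁₂.symm, Or.inr ⟨hb', ha'⟩⟩
    · exact absurd (ha'.symm.trans hb') hj₁₂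
  have beta' : ∀ m, u (q (m + 3) + 4 * x) = u (q (m + 1) + 4 * x) := by
    intro m
    obtain ⟨h1, h2⟩ := beta m
    obtain ⟨h3, h4⟩ := beta (m + 1)
    have e1 : m + 1 + 1 = m + 2 := rfl
    have e2 : m + 1 + 2 = m + 3 := rfl
    rw [e1, e2] at h3 h4
    rcases h2 with ⟨h2, h2'⟩ | ⟨h2, h2'⟩ <;> rcases h4 with ⟨h4, h4'⟩ | ⟨h4, h4'⟩
    · exact absurd (h4.symm.trans h2') hj₁₂
    · rw [h4', h2]
    · rw [h4', h2]
    · exact absurd (h2'.symm.trans h4) hj₁₂
  -- (γ)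
  have gamma : ∀ m, (q (m + 2) : ℝ) - q (m + 1) ≤ 5.5284 * x + K + 4 := by
    intro m
    obtain ⟨a, ha, ha', ha''⟩ := alpha (m + 1) (q (m + 1)) (hq.mem _)
    have e1 : m + 1 + 1 = m + 2 := rfl
    have e2 : m + 1 + 2 = m + 3 := rfl
    rw [e1, e2] at ha
    rcases ha with rfl | rfl
    · exact absurd ha'.symm (beta m).1
    · have g3 := hgap (m + 2)
      have e3 : m + 2 + 1 = m + 3 := rfl
      rw [e3] at g3
      have : (q (m + 3) : ℝ) ≤ q (m + 1) + 1 + G := by exact_mod_cast ha''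
      linarith
  -- (δ)
  have noT : ∀ m z z', E u (5 * x) z i₁ → E u (5 * x) z' i₁ → z + x = q (m + 1) →
      z' + x = q (m + 2) → False := by
    intro m z z' hz hz' h1 h2
    have hlt : q (m + 1) < q (m + 2) := hq.mono (by omega)
    have h3 := gap5 z (z' - z) (by omega) (by
      have e : z + (z' - z) = z' := by omega
      rw [e]; exact hz.trans hz'.symm)
    have h4 := gamma m
    have h5 : ((z' - z : ℕ) : ℝ) = (q (m + 2) : ℝ) - q (m + 1) := by
      rw [← h1, ← h2, Nat.cast_sub (by omega)]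
      push_cast
      ring
    rw [h5] at h3
    linarith
  have delta : ∀ m z, E u (5 * x) z i₁ → z + x = q (m + 1) →
      ∃ z', E u (5 * x) z' i₁ ∧ z' + x = q (m + 3) := by
    intro m z hz h1
    obtain ⟨z', hz1, hz2, hz3⟩ := win5 i₁ (z + 1)
    have hz4 : E u (4 * x) (z' + x) (i₁ + x) := hz3.shift x (4 * x) (by omega)
    obtain ⟨m', hm'⟩ := hq.all _ hz4
    have h2 : m + 1 < m' := by
      rw [← hq.mono.lt_iff_lt]; omega
    have h3 : m' < m + 4 := by
      rw [← hq.mono.lt_iff_lt]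
      have g1 := hgap (m + 1)
      have g2 := hgap (m + 2)
      have g3 := hgap (m + 3)
      have e1 : m + 1 + 1 = m + 2 := rfl
      have e2 : m + 2 + 1 = m + 3 := rfl
      have e3 : m + 3 + 1 = m + 4 := rfl
      rw [e1] at g1
      rw [e2] at g2
      rw [e3] at g3
      have hz2' : (z' : ℝ) ≤ z + 1 + G' := by exact_mod_cast hz2
      have h1' : (z : ℝ) + x = q (m + 1) := by exact_mod_cast h1
      have hm'' : (q m' : ℝ) = z' + x := by exact_mod_cast hm'
      have : (q m' : ℝ) < q (m + 4) := by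
        rw [hm'']
        linarith
      exact_mod_cast this
    have h4 : m' = m + 2 ∨ m' = m + 3 := by omega
    rcases h4 with rfl | rfl
    · exact absurd (noT m z z' hz hz3 h1 hm'.symm) (by simp)
    · exact ⟨z', hz3, hm'.symm⟩
  -- (ε)
  have eps : ∀ m z, E u (5 * x) z i₁ → z + x = q (m + 1) → ∀ t,
      (∃ z', E u (5 * x) z' i₁ ∧ z' + x = q (m + 1 + 2 * t)) ∧
        u (q (m + 1 + 2 * t) + 4 * x) = u (q (m + 1) + 4 * x) := by
    intro m z hz h1 t
    induction t with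
    | zero => exact ⟨⟨z, hz, h1⟩, rfl⟩
    | succ t ih =>
      obtain ⟨⟨z', hz', h2⟩, h3⟩ := ih
      have e1 : m + 1 + 2 * t = m + 2 * t + 1 := by ring
      have e2 : m + 1 + 2 * (t + 1) = m + 2 * t + 3 := by ring
      rw [e1] at h2 h3
      rw [e2]
      exact ⟨delta _ z' hz' h2, (beta' _).trans h3⟩
  -- (ζ)
  obtain ⟨j, j', hj, hj', hjj'⟩ := hRS
  obtain ⟨z, hz1, hz2⟩ := H.recur (5 * x + 1) j (q 1)
  have hzE : E u (5 * x) z i₁ := (hz2.mono (by omega)).trans hj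
  obtain ⟨m, hm⟩ := hq.all (z + x) (hzE.shift x (4 * x) (by omega))
  obtain ⟨z', hz'1, hz'2⟩ := H.recur (5 * x + 1) j' z
  have hz'E : E u (5 * x) z' i₁ := (hz'2.mono (by omega)).trans hj'
  obtain ⟨m', hm'⟩ := hq.all (z' + x) (hz'E.shift x (4 * x) (by omega))
  have hm1 : 1 ≤ m := by
    rw [← hq.mono.le_iff_le]; omega
  have hmm' : m ≤ m' := by
    rw [← hq.mono.le_iff_le]; omega
  obtain ⟨m₀, rfl⟩ : ∃ m₀, m = m₀ + 1 := ⟨m - 1, by omega⟩
  have hcol1 : u (q (m₀ + 1) + 4 * x) = u (j + 5 * x) := by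
    rw [hm, ← hz2 (5 * x) (by omega)]
    congr 1
    ring
  have hcol2 : u (q m' + 4 * x) = u (j' + 5 * x) := by
    rw [hm', ← hz'2 (5 * x) (by omega)]
    congr 1
    ring
  rcases Nat.even_or_odd' (m' - (m₀ + 1)) with ⟨t, ht | ht⟩
  · obtain ⟨_, h2⟩ := eps m₀ z hzE hm.symm t
    have e : m' = m₀ + 1 + 2 * t := by omega
    rw [← e, hcol2, hcol1] at h2
    exact hjj' h2.symm
  · obtain ⟨⟨z'', hz'', h1⟩, _⟩ := eps m₀ z hzE hm.symm t
    have e1 : m₀ + 1 + 2 * t = m₀ + 2 * t + 1 := by ring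
    have e : m' = m₀ + 2 * t + 2 := by omega
    rw [e1] at h1
    rw [e] at hm'
    exact noT _ z'' z' hz'' hz'E h1 hm'.symm

end Pool.Agent.Rauzy
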