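import Pool.Agent.H.MP_505085_co.CaseTwo

/-!
The coding of an infinite word by the two return words to its unique right special factor
of length `n`, when `p(n+1) = p(n)+1`.
-/

set_option autoImplicit false

namespace Pool.Agent.Rauzy

variable {k : ℕ} {u : ℕ → Fin k} {c : ℝ} {N : ℕ}

/-- Coding of the word by returns to a factor of length `n`: `q` enumerates the occurrences,
`col m` is the type of the `m`-th return, `len s` the length of returns of type `s`. -/
structure Stage (u : ℕ → Fin k) (n : ℕ) (q : ℕ → ℕ) (col : ℕ → Bool) (len : Bool → ℕ) : Prop where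
  pos : ∀ s, 0 < len s
  step : ∀ m, q (m + 1) = q m + len (col m)
  mem : ∀ m m', E u n (q m) (q m')
  all : ∀ i m, E u n i (q m) → ∃ m', q m' = i
  next : ∀ m m', col m = col m' → E u (n + len (col m)) (q m) (q m')
  letter : ∀ m m', u (q m + n) = u (q m' + n) → col m = col m'
  inf : ∀ s M, ∃ m, M ≤ m ∧ col m = s

/-- deterministic paths -/
lemma det_path {n i₀ : ℕ} (hR : ∀ i j, E u n i j → u (i + n) ≠ u (j + n) → E u n i i₀)
    {i j g : ℕ} (hi : E u n i i₀) (hj : E u n j i₀) (hl : u (i + n) = u (j + n)) (hg : 0 < g)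
    (hno : ∀ t, 0 < t → t < g → ¬ E u n (i + t) i₀) : E u (n + g) i j := by
  have key : ∀ t, t + 1 ≤ g → E u (n + (t + 1)) i j := by
    intro t
    induction t with
    | zero => intro _; exact E.succ (hi.trans hj.symm) hl
    | succ t ih =>
      intro ht
      have h1 := ih (by omega)
      have h2 : E u n (i + (t + 1)) (j + (t + 1)) := h1.shift (t + 1) n (by omega)
      have h3 : u (i + (t + 1) + n) = u (j + (t + 1) + n) := by
        by_contra hne
        exact hno (t + 1) (by omega) (by omega) (hR _ _ h2 hne)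
      refine E.succ h1 ?_
      have e1 : i + (t + 1) + n = i + (n + (t + 1)) := by ring
      have e2 : j + (t + 1) + n = j + (n + (t + 1)) := by ring
      rw [e1, e2] at h3
      exact h3
  have := key (g - 1) (by omega)
  have e : g - 1 + 1 = g := by omega
  rw [e] at this
  exact this

lemma Ctx.exists_stage (H : Ctx u c N) {n : ℕ} (hs : p u (n + 1) ≤ p u n + 1) {i₀ : ℕ}
    (hRS : RS u n i₀) : ∃ q col len, Stage u n q col len ∧ E u n (q 0) i₀ := by
  classical
  obtain ⟨q, hq⟩ := H.exists_occ n i₀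
  have hRS' := hRS
  obtain ⟨j, j', hj, hj', hjj'⟩ := hRS'
  have hR : ∀ i j, E u n i j → u (i + n) ≠ u (j + n) → E u n i i₀ := by
    intro i j hE hne
    exact RS.unique hs ⟨i, j, E.refl _ _ _, hE.symm, hne⟩ hRS
  -- two letters
  have h2 : ∀ i, E u n i i₀ → u (i + n) = u (j + n) ∨ u (i + n) = u (j' + n) := by
    intro i hi
    by_cases h1 : u (i + n) = u (j + n)
    · exact Or.inl h1
    · right
      have := (pairR hs (hj.trans hj'.symm) hjj' (hi.trans hj.symm) h1).1
      rcases this with h3 | h3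
      · exact absurd (h3 n (by omega)) h1
      · exact h3 n (by omega)
  -- both letters appear infinitely often
  have hinf : ∀ l, E u n l i₀ → ∀ M, ∃ m, M ≤ m ∧ u (q m + n) = u (l + n) := by
    intro l hl M
    obtain ⟨z, hz, hE⟩ := H.recur (n + 1) l (q M)
    obtain ⟨m, hm⟩ := hq.all z ((hE.mono (by omega)).trans hl)
    refine ⟨m, ?_, ?_⟩
    · rw [← hq.mono.le_iff_le]; omega
    · rw [hm]; exact hE n (by omega)
  set col : ℕ → Bool := fun m => decide (u (q m + n) = u (j + n)) with hcol
  have hcolT : ∀ m, col m = true ↔ u (q m + n) = u (j + n) := by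
    intro m; simp [hcol]
  have hcolF : ∀ m, col m = false ↔ u (q m + n) = u (j' + n) := by
    intro m
    have : col m = false ↔ ¬ (u (q m + n) = u (j + n)) := by simp [hcol]
    rw [this]
    constructor
    · intro h
      rcases h2 (q m) (hq.mem m) with h3 | h3
      · exact absurd h3 h
      · exact h3
    · intro h h3
      exact hjj' (h3.symm.trans h)
  have hletter : ∀ m m', u (q m + n) = u (q m' + n) → col m = col m' := by
    intro m m' h
    simp only [hcol, h]
  have hletter' : ∀ m m', col m = col m' → u (q m + n) = u (q m' + n) := by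
    intro m m' h
    cases h1 : col m with
    | true =>
      rw [h1] at h
      rw [(hcolT m).1 h1, (hcolT m').1 h.symm]
    | false =>
      rw [h1] at h
      rw [(hcolF m).1 h1, (hcolF m').1 h.symm]
  have hlt : ∀ m, q m < q (m + 1) := fun m => hq.mono (by omega)
  have hno : ∀ m t, 0 < t → t < q (m + 1) - q m → ¬ E u n (q m + t) i₀ := by
    intro m t ht1 ht2 hE
    obtain ⟨m', hm'⟩ := hq.all _ hE
    have h3 : m < m' := by rw [← hq.mono.lt_iff_lt]; omega
    have h4 : m' < m + 1 := by rw [← hq.mono.lt_iff_lt]; omega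
    omega
  have hnext : ∀ m m', col m = col m' → E u (n + (q (m + 1) - q m)) (q m) (q m') := by
    intro m m' h
    exact det_path hR (hq.mem m) (hq.mem m') (hletter' m m' h) (by have := hlt m; omega) (hno m)
  have hgapeq : ∀ m m', col m = col m' → q (m + 1) - q m ≤ q (m' + 1) - q m' := by
    intro m m' h
    by_contra hcon
    push Not at hcon
    have h1 := hnext m m' h
    have h3 := hlt m'
    have h4 : E u n (q m + (q (m' + 1) - q m')) (q m' + (q (m' + 1) - q m')) :=
      h1.shift _ _ (by omega)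
    have e : q m' + (q (m' + 1) - q m') = q (m' + 1) := by omega
    rw [e] at h4
    exact hno m _ (by omega) hcon (h4.trans (hq.mem _))
  obtain ⟨mT, _, hmT⟩ := hinf j hj 0
  obtain ⟨mF, _, hmF⟩ := hinf j' hj' 0
  have hmT' : col mT = true := (hcolT mT).2 hmT
  have hmF' : col mF = false := (hcolF mF).2 hmF
  set len : Bool → ℕ := fun s => if s then q (mT + 1) - q mT else q (mF + 1) - q mF with hlen
  have hlenm : ∀ m, len (col m) = q (m + 1) - q m := by
    intro m
    cases h1 : col m with
    | true =>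
      simp only [hlen, if_true]
      exact le_antisymm (hgapeq _ _ (by rw [h1, hmT'])) (hgapeq _ _ (by rw [h1, hmT']))
    | false =>
      simp only [hlen]
      exact le_antisymm (hgapeq _ _ (by rw [h1, hmF'])) (hgapeq _ _ (by rw [h1, hmF']))
  refine ⟨q, col, len, ?_, hq.mem 0⟩
  refine ⟨?_, ?_, ?_, ?_, ?_, hletter, ?_⟩
  · intro s
    cases s
    · have := hlt mF; simp only [hlen]; simp; exact this
    · have := hlt mT; simp only [hlen]; simp; exact this
  · intro m
    rw [hlenm m]
    have := hlt m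
    omega
  · intro m m'
    exact (hq.mem m).trans (hq.mem m').symm
  · intro i m hE
    exact hq.all i (hE.trans (hq.mem m))
  · intro m m' h
    rw [hlenm m]
    exact hnext m m' h
  · intro s M
    cases s
    · obtain ⟨m, h1, h3⟩ := hinf j' hj' M
      exact ⟨m, h1, (hcolF m).2 h3⟩
    · obtain ⟨m, h1, h3⟩ := hinf j hj M
      exact ⟨m, h1, (hcolT m).2 h3⟩

section stage
variable {n : ℕ} {q : ℕ → ℕ} {col : ℕ → Bool} {len : Bool → ℕ}

lemma Stage.mono (S : Stage u n q col len) : StrictMono q :=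
  strictMono_nat_of_lt_succ (fun m => by rw [S.step]; have := S.pos (col m); omega)

lemma Stage.ge (S : Stage u n q col len) (m : ℕ) : m ≤ q m := S.mono.le_apply

/-- coincidence of the codes implies coincidence of the words -/
lemma Stage.code (S : Stage u n q col len) {m m' : ℕ} (K : ℕ)
    (h : ∀ t, t < K → col (m + t) = col (m' + t)) :
    ∃ d, q (m + K) = q m + d ∧ q (m' + K) = q m' + d ∧ E u (n + d) (q m) (q m') := by
  induction K with
  | zero => exact ⟨0, rfl, rfl, S.mem _ _⟩
  | succ K ih =>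
    obtain ⟨d, h1, h2, h3⟩ := ih (fun t ht => h t (by omega))
    have h4 := h K (by omega)
    have h5 := S.next _ _ h4
    refine ⟨d + len (col (m + K)), ?_, ?_, ?_⟩
    · rw [← Nat.add_assoc, S.step, h1, Nat.add_assoc]
    · rw [← Nat.add_assoc, S.step, h2, h4, Nat.add_assoc]
    · rw [h1, h2] at h5
      have := h3.glue h5 (by omega)
      have e : d + (n + len (col (m + K))) = n + (d + len (col (m + K))) := by ring
      rw [e] at this
      exact this

/-- repetitions in the code give repetitions in the word -/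
lemma Stage.rep (S : Stage u n q col len) (H : Ctx u c N) {m K J : ℕ} (hK : 0 < K)
    (h : ∀ t, t < J → col (m + t) = col (m + K + t)) (hn : c * (N * N) ≤ n) :
    ∃ r, q (m + K) = q m + r ∧ N ≤ r ∧
      (n : ℝ) + ((q (m + K + J) : ℝ) - q m) + p u r ≤ c * r + r := by
  obtain ⟨d, h1, h2, h3⟩ := S.code J h
  have hlt : q m < q (m + K) := S.mono (by omega)
  obtain ⟨r, hr⟩ := Nat.exists_eq_add_of_lt hlt
  have hr' : q (m + K) = q m + (r + 1) := by omega
  rw [hr'] at h3
  have hper := per_of_E h3
  have hL : c * (N * N) ≤ ((n + d + (r + 1) : ℕ) : ℝ) := by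
    push_cast
    have h4 : (0 : ℝ) ≤ d := by positivity
    have h5 : (0 : ℝ) ≤ r := by positivity
    linarith
  have h4 := H.rep_large (Nat.succ_pos r) hper hL
  have h5 := H.count h4 (by omega) hper (H.p_gt _)
  refine ⟨r + 1, hr', h4, ?_⟩
  have e : (q (m + K + J) : ℝ) = q m + (r + 1) + d := by
    rw [h2, hr']
    push_cast
    ring
  rw [e]
  push_cast at h5 ⊢
  linarith

/-- the code is not eventually periodic -/
lemma Stage.not_evper (S : Stage u n q col len) (H : Ctx u c N) (hn : c * (N * N) ≤ n) :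
    ¬ ∃ m₀ K, 0 < K ∧ ∀ m, m₀ ≤ m → col (m + K) = col m := by
  rintro ⟨m₀, K, hK, h⟩
  obtain ⟨J, hJ⟩ := exists_nat_gt (c * (q (m₀ + K) : ℝ) + q m₀)
  obtain ⟨r, hr, _, h1⟩ := S.rep H (m := m₀) (K := K) (J := J) hK (by
    intro t _
    rw [← h (m₀ + t) (by omega)]
    congr 1
    ring) hn
  have h2 := H.p_gt r
  have h2' : (r : ℝ) + 1 ≤ p u r := by exact_mod_cast h2
  have h3 : ((m₀ + K + J : ℕ) : ℝ) ≤ q (m₀ + K + J) := by exact_mod_cast S.ge _
  push_cast at h3
  have h4 : (r : ℝ) ≤ q (m₀ + K) := by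
    have : r ≤ q (m₀ + K) := by omega
    exact_mod_cast this
  have h5 := H.c3
  have h6 : c * (r : ℝ) ≤ c * q (m₀ + K) := mul_le_mul_of_nonneg_left h4 (by linarith)
  have h7 : (0 : ℝ) ≤ m₀ := by positivity
  have h8 : (0 : ℝ) ≤ K := by positivity
  have h9 : (0 : ℝ) ≤ n := by positivity
  linarith

/-- two equal consecutive letters -/
lemma Stage.sq (S : Stage u n q col len) (H : Ctx u c N) {m : ℕ} {s : Bool} (h0 : col m = s)
    (h1 : col (m + 1) = s) (hn : c * (N * N) ≤ n) :
    N ≤ len s ∧ (n : ℝ) + 2 * len s + p u (len s) ≤ c * len s + len s := by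
  obtain ⟨r, hr, hN, h⟩ := S.rep H (m := m) (K := 1) (J := 1) (by omega) (by
    intro t ht
    have : t = 0 := by omega
    subst this
    simp only [Nat.add_zero]
    rw [h0, h1]) hn
  have e1 := S.step m
  have e2 := S.step (m + 1)
  rw [h0] at e1
  rw [h1] at e2
  have hrs : r = len s := by omega
  subst hrs
  refine ⟨hN, ?_⟩
  have e3 : (q (m + 1 + 1) : ℝ) = q m + 2 * len s := by
    rw [e2, e1]; push_cast; ring
  rw [e3] at h
  linarith

/-- three equal consecutive letters -/
lemma Stage.cube (S : Stage u n q col len) (H : Ctx u c N) {m : ℕ} {s : Bool} (h0 : col m = s)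
    (h1 : col (m + 1) = s) (h2 : col (m + 2) = s) (hn : c * (N * N) ≤ n) :
    (n : ℝ) + 3 * len s + p u (len s) ≤ c * len s + len s := by
  obtain ⟨r, hr, hN, h⟩ := S.rep H (m := m) (K := 1) (J := 2) (by omega) (by
    intro t ht
    have : t = 0 ∨ t = 1 := by omega
    rcases this with rfl | rfl
    · simp only [Nat.add_zero]
      rw [h0, h1]
    · rw [h1]
      have e : m + 1 + 1 = m + 2 := rfl
      rw [e, h2]) hn
  have e1 := S.step m
  have e2 := S.step (m + 1)
  have e3 := S.step (m + 2)
  rw [h0] at e1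
  rw [h1] at e2
  rw [h2] at e3
  have hrs : r = len s := by omega
  subst hrs
  have e4 : (q (m + 1 + 2) : ℝ) = q m + 3 * len s := by
    have e5 : m + 1 + 2 = m + 2 + 1 := rfl
    have e6 : m + 1 + 1 = m + 2 := rfl
    rw [e5, e3, ← e6, e2, e1]; push_cast; ring
  rw [e4] at h
  linarith

lemma Stage.left_of (S : Stage u n q col len) {m m' : ℕ} (h : col m = col m') :
    u (q (m + 1) - 1) = u (q (m' + 1) - 1) := by
  have h1 := S.next m m' h
  have h2 := S.pos (col m)
  have h3 := h1 (len (col m) - 1) (by omega)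
  rw [S.step m, S.step m', ← h]
  have e1 : q m + len (col m) - 1 = q m + (len (col m) - 1) := by omega
  have e2 : q m' + len (col m) - 1 = q m' + (len (col m) - 1) := by omega
  rw [e1, e2]
  exact h3

/-- an occurrence after the first one -/
lemma Stage.later (S : Stage u n q col len) {i m₀ : ℕ} (h : E u n i (q m₀)) (h' : q 0 < i) :
    ∃ m, q (m + 1) = i := by
  obtain ⟨m, hm⟩ := S.all i m₀ h
  have : 0 < m := by rw [← S.mono.lt_iff_lt]; omega
  refine ⟨m - 1, ?_⟩
  have e : m - 1 + 1 = m := by omega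
  rw [e]; exact hm

/-- the left letter determines the type of the return, when the factor is left special -/
lemma Stage.left (S : Stage u n q col len) (H : Ctx u c N) (hLS : LS u n (q 0)) (m m' : ℕ)
    (h : u (q (m + 1) - 1) = u (q (m' + 1) - 1)) : col m = col m' := by
  obtain ⟨j, j', hj, hj', hjj'⟩ := hLS
  have key : ∀ j, E u n (j + 1) (q 0) → ∃ m, u (q (m + 1) - 1) = u j := by
    intro j hj
    obtain ⟨z, hz, hE⟩ := H.recur (n + 1) j (q 0)
    obtain ⟨m, hm⟩ := S.later (i := z + 1) (m₀ := 0) ((hE.shift 1 n (by omega)).trans hj) (by omega)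
    refine ⟨m, ?_⟩
    rw [hm]
    simpa using hE 0 (by omega)
  obtain ⟨m₁, h1⟩ := key j hj
  obtain ⟨m₂, h2⟩ := key j' hj'
  have h12 : col m₁ ≠ col m₂ := by
    intro he
    have := S.left_of he
    rw [h1, h2] at this
    exact hjj' this
  by_contra hne
  have hc : (col m = col m₁ ∧ col m' = col m₂) ∨ (col m = col m₂ ∧ col m' = col m₁) := by
    revert h12 hne
    cases col m <;> cases col m' <;> cases col m₁ <;> cases col m₂ <;> simp
  rcases hc with ⟨h3, h4⟩ | ⟨h3, h4⟩
  · rw [S.left_of h3, S.left_of h4, h1, h2] at h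
    exact hjj' h
  · rw [S.left_of h3, S.left_of h4, h1, h2] at h
    exact hjj' h.symm

/-- windows for pairs of consecutive letters -/
lemma Stage.pair_window (S : Stage u n q col len) (H : Ctx u c N) (hLS : LS u n (q 0))
    (hn : N ≤ n + 2) (G : ℕ) (hG : (c - 1) * ((n + 2 : ℕ) : ℝ) < G + 1) (m₀ j : ℕ)
    (hj : q 0 < j) :
    ∃ m, j ≤ q (m + 1) ∧ q (m + 1) ≤ j + G ∧ col m = col m₀ ∧ col (m + 1) = col (m₀ + 1) := by
  obtain ⟨z, hz1, hz2, hE⟩ := H.window hn G hG (q (m₀ + 1) - 1) (j - 1)
  have hpos : 0 < q (m₀ + 1) := lt_of_le_of_lt (Nat.zero_le _) (S.mono (Nat.lt_succ_self m₀))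
  have h1 : E u (n + 1) (z + 1) (q (m₀ + 1)) := by
    have := hE.shift 1 (n + 1) (by omega)
    have e : q (m₀ + 1) - 1 + 1 = q (m₀ + 1) := by omega
    rw [e] at this
    exact this
  obtain ⟨m, hm⟩ := S.later (h1.mono (by omega)) (by omega : q 0 < z + 1)
  refine ⟨m, by omega, by omega, ?_, ?_⟩
  · apply S.left H hLS
    rw [hm]
    simpa using hE 0 (by omega)
  · apply S.letter
    rw [hm]
    exact h1 n (by omega)

/-- recurrence of pairs of consecutive letters -/
lemma Stage.pair_recur (S : Stage u n q col len) (H : Ctx u c N) (hLS : LS u n (q 0))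
    (m₀ M : ℕ) : ∃ m, M ≤ m ∧ col m = col m₀ ∧ col (m + 1) = col (m₀ + 1) := by
  obtain ⟨z, hz1, hE⟩ := H.recur (n + 2) (q (m₀ + 1) - 1) (q (M + 1))
  have hpos : 0 < q (m₀ + 1) := lt_of_le_of_lt (Nat.zero_le _) (S.mono (Nat.lt_succ_self m₀))
  have h0 : q 0 < q (M + 1) := S.mono (by omega)
  have h1 : E u (n + 1) (z + 1) (q (m₀ + 1)) := by
    have := hE.shift 1 (n + 1) (by omega)
    have e : q (m₀ + 1) - 1 + 1 = q (m₀ + 1) := by omega
    rw [e] at this
    exact this
  obtain ⟨m, hm⟩ := S.later (h1.mono (by omega)) (by omega : q 0 < z + 1)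
  refine ⟨m, ?_, ?_, ?_⟩
  · have : M + 1 ≤ m + 1 := by rw [← S.mono.le_iff_le]; omega
    omega
  · apply S.left H hLS
    rw [hm]
    simpa using hE 0 (by omega)
  · apply S.letter
    rw [hm]
    exact h1 n (by omega)

end stage

end Pool.Agent.Rauzy
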